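import Mathlib

/-!
Selective ultrafilters on the natural numbers, with the diagonal lemma used for `MP_7518b9_an`.
-/

namespace Pool.Agent.H32UP

open Filter Topology

/-- A non-principal ultrafilter on `ℕ` is selective if for every partition of `ℕ` into pieces
none of which lies in the ultrafilter, some set in the ultrafilter meets each piece in at most
one point. -/
def IsSelective (U : Ultrafilter ℕ) : Prop :=
  (∀ n : ℕ, ({n} : Set ℕ) ∉ U) ∧
  ∀ P : Set (Set ℕ), Setoid.IsPartition P → (∀ s ∈ P, s ∉ U) →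
    ∃ A ∈ U, ∀ s ∈ P, (A ∩ s).Subsingleton

variable {U : Ultrafilter ℕ}

theorem IsSelective.finite_notMem (hU : IsSelective U) {s : Set ℕ} (hs : s.Finite) : s ∉ U := by
  intro h
  have h2 : ∀ t : Finset ℕ, (t : Set ℕ) ∉ U := by
    intro t
    induction t using Finset.induction_on with
    | empty => simp
    | insert a t ha ih =>
      intro h
      rw [Finset.coe_insert, Set.insert_eq, Ultrafilter.union_mem_iff] at h
      rcases h with h | h
      · exact hU.1 a h
      · exact ih h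
  exact h2 hs.toFinset (by simpa using h)

theorem IsSelective.ge_mem (hU : IsSelective U) (M : ℕ) : {n : ℕ | M ≤ n} ∈ U := by
  rw [← Ultrafilter.compl_notMem_iff]
  apply hU.finite_notMem
  apply (Set.finite_lt_nat M).subset
  intro n hn
  simpa using hn

theorem IsSelective.infinite (hU : IsSelective U) {A : Set ℕ} (hA : A ∈ U) : A.Infinite := by
  intro h
  exact hU.finite_notMem h hA

theorem IsSelective.fun (hU : IsSelective U) (f : ℕ → ℕ) (hf : ∀ k, {n | f n = k} ∉ U) :
    ∃ A ∈ U, Set.InjOn f A := by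
  obtain ⟨A, hA, h⟩ := hU.2 (Setoid.ker f).classes (Setoid.isPartition_classes _) (by
    rintro s ⟨y, rfl⟩
    exact hf (f y))
  refine ⟨A, hA, ?_⟩
  intro x hx y hy hxy
  exact h {z | (Setoid.ker f) z y} ⟨y, rfl⟩ ⟨hx, hxy⟩ ⟨hy, rfl⟩

/-- The recursion used for the gap lemma. -/
def gapSeq (g : ℕ → ℕ) : ℕ → ℕ
  | 0 => 0
  | (k+1) => (Finset.range (gapSeq g k + 1)).sup g + gapSeq g k + 1

theorem gapSeq_lt (g : ℕ → ℕ) (k : ℕ) : gapSeq g k < gapSeq g (k+1) := by
  simp only [gapSeq]; omega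

theorem gapSeq_strictMono (g : ℕ → ℕ) : StrictMono (gapSeq g) := strictMono_nat_of_lt_succ (gapSeq_lt g)

theorem le_gapSeq (g : ℕ → ℕ) {i k : ℕ} (h : i ≤ gapSeq g k) : g i ≤ gapSeq g (k+1) := by
  have : g i ≤ (Finset.range (gapSeq g k + 1)).sup g :=
    Finset.le_sup (f := g) (Finset.mem_range.2 (by omega))
  simp only [gapSeq]; omega

theorem gap_exists (g : ℕ → ℕ) (n : ℕ) : ∃ k, n < gapSeq g (k+1) :=
  ⟨n, lt_of_lt_of_le (Nat.lt_succ_self n) ((gapSeq_strictMono g).le_apply)⟩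

theorem IsSelective.gap (hU : IsSelective U) (g : ℕ → ℕ) :
    ∃ A ∈ U, ∀ m ∈ A, ∀ n ∈ A, m < n → g m ≤ n := by
  classical
  set f : ℕ → ℕ := fun n => Nat.find (gap_exists g n) with hf
  have f1 : ∀ n, n < gapSeq g (f n + 1) := fun n => Nat.find_spec (gap_exists g n)
  have f2 : ∀ n, gapSeq g (f n) ≤ n := by
    intro n
    rcases Nat.eq_zero_or_pos (f n) with h | h
    · rw [h]; simp [gapSeq]
    · have h3 := Nat.find_min (gap_exists g n) (m := f n - 1) (by simp only [hf] at h ⊢; omega)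
      rw [Nat.sub_add_cancel h] at h3
      exact not_lt.1 h3
  have fmono : ∀ m n, m < n → f m ≤ f n := by
    intro m n hmn
    exact Nat.find_le (le_refl _ |>.trans_lt (hmn.trans (f1 n)))
  obtain ⟨A, hA, hinj⟩ := hU.fun f (by
    intro k
    apply hU.finite_notMem
    apply (Set.finite_lt_nat (gapSeq g (k+1))).subset
    intro n hn
    have := f1 n
    simp only [Set.mem_ofPred_eq] at hn ⊢
    rw [hn] at this
    exact this)
  have key : ∀ B ∈ U, (∀ m ∈ B, ∀ n ∈ B, f m % 2 = f n % 2) →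
      ∃ A ∈ U, ∀ m ∈ A, ∀ n ∈ A, m < n → g m ≤ n := by
    intro B hB hpar
    refine ⟨A ∩ B, inter_mem hA hB, ?_⟩
    rintro m ⟨hmA, hmB⟩ n ⟨hnA, hnB⟩ hmn
    have h1 := fmono m n hmn
    have h2 : f m ≠ f n := fun h => (hmn.ne (hinj hmA hnA h))
    have h3 := hpar m hmB n hnB
    have h4 : f m + 2 ≤ f n := by omega
    calc g m ≤ gapSeq g (f m + 1 + 1) := le_gapSeq g (f1 m).le
      _ ≤ gapSeq g (f n) := (gapSeq_strictMono g).monotone h4
      _ ≤ n := f2 n
  rcases Ultrafilter.mem_or_compl_mem U {n | f n % 2 = 0} with h | h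
  · exact key _ h (fun m hm n hn => by simp only [Set.mem_ofPred_eq] at hm hn; omega)
  · exact key _ h (fun m hm n hn => by simp only [Set.mem_compl_iff, Set.mem_ofPred_eq] at hm hn; omega)

theorem IsSelective.diag (hU : IsSelective U) (B : ℕ → Set ℕ) (hB : ∀ m, B m ∈ U) :
    ∃ A ∈ U, ∀ m ∈ A, ∀ n ∈ A, m < n → n ∈ B m := by
  classical
  set f : ℕ → ℕ := fun n => if h : ∃ m, n ∉ B m then Nat.find h + 1 else 0 with hf
  by_cases h0 : {n | f n = 0} ∈ U
  · refine ⟨_, h0, ?_⟩
    intro m _ n hn _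
    by_contra hc
    simp only [Set.mem_ofPred_eq, hf] at hn
    rw [dif_pos ⟨m, hc⟩] at hn
    omega
  obtain ⟨A, hA, hinj⟩ := hU.fun f (by
    intro k
    rcases k with _ | k
    · exact h0
    · intro hk
      have : {n | f n = k + 1} ⊆ (B k)ᶜ := by
        intro n hn
        simp only [Set.mem_ofPred_eq, hf] at hn
        split_ifs at hn with h
        have h5 := Nat.find_spec h
        have h6 : Nat.find h = k := by omega
        rw [h6] at h5
        exact h5
      exact (Ultrafilter.compl_notMem_iff.2 (hB k)) (mem_of_superset hk this))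
  have hfin : ∀ m, (A ∩ {n | f n ≤ m + 1}).Finite := by
    intro m
    apply Set.Finite.of_finite_image (f := f)
    · apply (Set.finite_le_nat (m+1)).subset
      rintro _ ⟨n, ⟨_, hn⟩, rfl⟩
      exact hn
    · exact hinj.mono Set.inter_subset_left
  have hg : ∀ m, ∃ k, ∀ n ∈ A, k ≤ n → n ∈ B m := by
    intro m
    obtain ⟨k, hk⟩ := (hfin m).bddAbove
    refine ⟨k + 1, ?_⟩
    intro n hn hkn
    by_contra hc
    have : n ∈ (A ∩ {n | f n ≤ m + 1}) := by
      refine ⟨hn, ?_⟩
      simp only [Set.mem_ofPred_eq, hf]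
      rw [dif_pos ⟨m, hc⟩]
      have := Nat.find_min' (⟨m, hc⟩ : ∃ m, n ∉ B m) hc
      omega
    have := hk this
    omega
  choose g hg using hg
  obtain ⟨A', hA', h'⟩ := hU.gap g
  refine ⟨A ∩ A', inter_mem hA hA', ?_⟩
  rintro m ⟨_, hm⟩ n ⟨hnA, hn⟩ hmn
  exact hg m n hnA (h' m hm n hn hmn)

/-- The off-diagonal lemma: a matrix with non-negative entries and uniformly summable rows has
small off-diagonal row sums on some set of a selective ultrafilter. -/
theorem IsSelective.offDiag (hU : IsSelective U) (c : ℕ → ℕ → ℝ) (K : ℝ)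
    (hc0 : ∀ n m, 0 ≤ c n m) (hcK : ∀ n, ∀ F : Finset ℕ, ∑ m ∈ F, c n m ≤ K)
    {ε : ℝ} (hε : 0 < ε) :
    ∃ A ∈ U, ∀ n ∈ A, ∀ F : Finset ℕ, (F : Set ℕ) ⊆ A → n ∉ F → ∑ m ∈ F, c n m ≤ ε := by
  classical
  have hlim : ∀ m, ∃ d, Tendsto (fun n => c n m) U (𝓝 d) := by
    intro m
    have hmem : ∀ n, c n m ∈ Set.Icc 0 K := fun n => ⟨hc0 n m, by simpa using hcK n {m}⟩
    have hle : (U.map (fun n => c n m) : Filter ℝ) ≤ 𝓟 (Set.Icc 0 K) := by
      rw [le_principal_iff]
      exact Filter.mem_map.2 (Filter.univ_mem' hmem)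
    obtain ⟨d, _, hd⟩ := (isCompact_Icc (a := (0:ℝ)) (b := K)).ultrafilter_le_nhds
      (U.map (fun n => c n m)) hle
    exact ⟨d, hd⟩
  choose d hd using hlim
  have hd0 : ∀ m, 0 ≤ d m := fun m => ge_of_tendsto' (hd m) (fun n => hc0 n m)
  have hdK : ∀ F : Finset ℕ, ∑ m ∈ F, d m ≤ K := by
    intro F
    exact le_of_tendsto' (tendsto_finsetSum F (fun m _ => hd m)) (fun n => hcK n F)
  have hds : Summable d := summable_of_sum_le hd0 hdK
  have hcs : ∀ n, Summable (c n) := fun n => summable_of_sum_le (hc0 n) (hcK n)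
  have htail : ∀ (a : ℕ → ℝ), (∀ m, 0 ≤ a m) → Summable a → ∀ δ > 0, ∃ M, ∀ F : Finset ℕ,
      (∀ m ∈ F, M ≤ m) → ∑ m ∈ F, a m ≤ δ := by
    intro a ha hs δ hδ
    obtain ⟨s, hs'⟩ := summable_iff_vanishing_norm.1 hs δ hδ
    obtain ⟨M, hM⟩ := s.bddAbove
    refine ⟨M + 1, ?_⟩
    intro F hF
    have := hs' F (by
      rw [Finset.disjoint_left]
      intro x hx hxs
      have h1 := hF x hx
      have h2 := hM hxs
      omega)
    exact (le_abs_self _).trans this.le
  obtain ⟨M, hM⟩ := htail d hd0 hds (ε/4) (by positivity)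
  obtain ⟨A₁, hA₁, h₁⟩ := hU.diag (fun m => {n | c n m ≤ d m + ε/4 * (1/2)^(m+1)}) (by
    intro m
    have : ∀ᶠ n in (U : Filter ℕ), c n m < d m + ε/4 * (1/2)^(m+1) :=
      (hd m).eventually (gt_mem_nhds (by
        have : 0 < ε/4 * (1/2)^(m+1) := by positivity
        linarith))
    exact this.mono (fun n hn => le_of_lt hn))
  have hg : ∀ n, ∃ k, ∀ F : Finset ℕ, (∀ m ∈ F, k ≤ m) → ∑ m ∈ F, c n m ≤ ε/2 :=
    fun n => htail (c n) (hc0 n) (hcs n) (ε/2) (by positivity)
  choose g hg using hg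
  obtain ⟨A₂, hA₂, h₂⟩ := hU.gap g
  refine ⟨A₁ ∩ A₂ ∩ {n | M ≤ n}, inter_mem (inter_mem hA₁ hA₂) (hU.ge_mem M), ?_⟩
  intro n hn F hF hnF
  have hsplit : ∑ m ∈ F, c n m = ∑ m ∈ F.filter (· < n), c n m + ∑ m ∈ F.filter (fun m => ¬ m < n), c n m :=
    (Finset.sum_filter_add_sum_filter_not F _ _).symm
  have e1 : ∑ m ∈ F.filter (fun m => ¬ m < n), c n m ≤ ε/2 := by
    apply hg n
    intro m hm
    rw [Finset.mem_filter] at hm
    have hmA := hF (Finset.mem_coe.2 hm.1)
    have hne : m ≠ n := fun h => hnF (h ▸ hm.1)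
    exact h₂ n hn.1.2 m hmA.1.2 (by omega)
  have e2 : ∑ m ∈ F.filter (· < n), c n m ≤ ε/2 := by
    calc ∑ m ∈ F.filter (· < n), c n m ≤ ∑ m ∈ F.filter (· < n), (d m + ε/4 * (1/2)^(m+1)) := by
          apply Finset.sum_le_sum
          intro m hm
          rw [Finset.mem_filter] at hm
          have hmA := hF (Finset.mem_coe.2 hm.1)
          exact h₁ m hmA.1.1 n hn.1.1 hm.2
      _ = ∑ m ∈ F.filter (· < n), d m + ε/4 * ∑ m ∈ F.filter (· < n), (1/2:ℝ)^(m+1) := by
          rw [Finset.sum_add_distrib, Finset.mul_sum]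
      _ ≤ ε/4 + ε/4 * 1 := by
          apply add_le_add
          · apply hM
            intro m hm
            rw [Finset.mem_filter] at hm
            exact (hF (Finset.mem_coe.2 hm.1)).2
          · apply mul_le_mul_of_nonneg_left _ (by positivity)
            have hs : Summable (fun m : ℕ => (1/2:ℝ)^(m+1)) :=
              (summable_nat_add_iff 1).2 (summable_geometric_of_lt_one (by norm_num) (by norm_num))
            have : ∑' m : ℕ, (1/2:ℝ)^(m+1) = 1 := by
              simp_rw [pow_succ, tsum_mul_right]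
              rw [tsum_geometric_of_lt_one (by norm_num) (by norm_num)]
              norm_num
            exact (hs.sum_le_tsum _ (fun i _ => by positivity)).trans this.le
      _ = ε/2 := by ring
  rw [hsplit]; linarith

end Pool.Agent.H32UP
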