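import Mathlib
import Pool.Agent.H32UP.Sel

/-!
Ultrapowers of a normed space along an ultrafilter on `ℕ`, realised as the quotient of the space
of bounded sequences by the sequences whose norm tends to zero along the ultrafilter.
-/

noncomputable section

namespace Pool.Agent.H32UP

open Filter Topology ENNReal

section Defs

/-- Bounded sequences in `E`, with the supremum norm. -/
def LInf (E : Type*) [NormedAddCommGroup E] : Type _ := ↥(lp (fun _ : ℕ => E) ∞)

instance instNormLInf (E : Type*) [NormedAddCommGroup E] : NormedAddCommGroup (LInf E) :=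
  lp.normedAddCommGroup

instance instSpaceLInf (𝕜 E : Type*) [NontriviallyNormedField 𝕜] [NormedAddCommGroup E]
    [NormedSpace 𝕜 E] : NormedSpace 𝕜 (LInf E) :=
  lp.instNormedSpace

instance instCoeLInf (E : Type*) [NormedAddCommGroup E] : CoeFun (LInf E) (fun _ => ℕ → E) :=
  ⟨fun x => x.1⟩

variable (𝕜 : Type*) [NontriviallyNormedField 𝕜] (E : Type*) [NormedAddCommGroup E]
  [NormedSpace 𝕜 E]

/-- The subspace of bounded sequences whose norms tend to zero along `U`. -/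
def nullSeq (U : Ultrafilter ℕ) : Submodule 𝕜 (LInf E) where
  carrier := {x | Tendsto (fun n => ‖x n‖) U (𝓝 0)}
  add_mem' := by
    intro x y hx hy
    have h := hx.add hy
    rw [add_zero] at h
    refine squeeze_zero (fun n => norm_nonneg _) (fun n => ?_) h
    exact norm_add_le _ _
  zero_mem' := by
    show Tendsto (fun _ : ℕ => ‖(0 : E)‖) U (𝓝 0)
    simp
  smul_mem' := by
    intro c x hx
    have h := hx.const_mul ‖c‖
    rw [mul_zero] at h
    refine squeeze_zero (fun n => norm_nonneg _) (fun n => ?_) h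
    exact (norm_smul c (x n)).le

/-- The ultrapower of `E` along `U`, with the quotient norm. -/
def UP (U : Ultrafilter ℕ) := LInf E ⧸ nullSeq 𝕜 E U

instance instSemiUP (U : Ultrafilter ℕ) : SeminormedAddCommGroup (UP 𝕜 E U) :=
  Submodule.Quotient.seminormedAddCommGroup (nullSeq 𝕜 E U)

instance instSpaceUP (U : Ultrafilter ℕ) : NormedSpace 𝕜 (UP 𝕜 E U) :=
  Submodule.Quotient.normedSpace (nullSeq 𝕜 E U) 𝕜

end Defs

variable {𝕜 : Type*} [RCLike 𝕜] {E : Type*} [NormedAddCommGroup E] [NormedSpace 𝕜 E]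
  {U : Ultrafilter ℕ}

/-- The class of a bounded sequence. -/
def mk (𝕜 : Type*) [NontriviallyNormedField 𝕜] {E : Type*} [NormedAddCommGroup E]
    [NormedSpace 𝕜 E] (U : Ultrafilter ℕ) (x : LInf E) : UP 𝕜 E U := Submodule.Quotient.mk x

theorem mk_surjective (w : UP 𝕜 E U) : ∃ x : LInf E, mk 𝕜 U x = w :=
  Submodule.Quotient.mk_surjective _ w

/-- A bounded family in a proper space converges along an ultrafilter. -/
theorem exists_lim {F : Type*} [NormedAddCommGroup F] [ProperSpace F] (U : Ultrafilter ℕ)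
    (v : ℕ → F) (C : ℝ) (hv : ∀ n, ‖v n‖ ≤ C) : ∃ d, Tendsto v U (𝓝 d) := by
  have hle : (U.map v : Filter F) ≤ 𝓟 (Metric.closedBall 0 C) := by
    rw [le_principal_iff]
    refine Filter.mem_map.2 (Filter.univ_mem' (fun n => ?_))
    simpa using hv n
  obtain ⟨d, _, hd⟩ := (isCompact_closedBall (0 : F) C).ultrafilter_le_nhds (U.map v) hle
  exact ⟨d, hd⟩

theorem mem_null {x : LInf E} : x ∈ nullSeq 𝕜 E U ↔ Tendsto (fun n => ‖x n‖) U (𝓝 0) := Iff.rfl

/-- Building a bounded sequence. -/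
def seq (v : ℕ → E) (C : ℝ) (hv : ∀ n, ‖v n‖ ≤ C) : LInf E :=
  ⟨v, memℓp_infty ⟨C, by rintro _ ⟨n, rfl⟩; exact hv n⟩⟩

@[simp] theorem seq_apply (v : ℕ → E) (C : ℝ) (hv : ∀ n, ‖v n‖ ≤ C) (n : ℕ) : seq v C hv n = v n := rfl

theorem norm_apply_le (x : LInf E) (n : ℕ) : ‖x n‖ ≤ ‖x‖ := lp.norm_apply_le_norm (by simp) x n

theorem mk_eq_iff {x y : LInf E} : mk 𝕜 U x = mk 𝕜 U y ↔ Tendsto (fun n => ‖x n - y n‖) U (𝓝 0) :=
  Submodule.Quotient.eq _

/-- The norm of the class of `x` is the limit of the norms along the ultrafilter. -/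
theorem tendsto_norm_mk (x : LInf E) : Tendsto (fun n => ‖x n‖) U (𝓝 ‖mk 𝕜 U x‖) := by
  obtain ⟨L, hL⟩ := exists_lim U (fun n => ‖x n‖) ‖x‖ (fun n => by simpa using norm_apply_le x n)
  have hL0 : 0 ≤ L := ge_of_tendsto' hL (fun n => norm_nonneg _)
  have h1 : ‖mk 𝕜 U x‖ ≤ L := by
    refine le_of_forall_pos_le_add (fun ε hε => ?_)
    classical
    have hA : ∀ᶠ n in (U : Filter ℕ), ‖x n‖ < L + ε := hL.eventually (gt_mem_nhds (by linarith))
    let y : LInf E := seq (fun n => if ‖x n‖ < L + ε then x n else 0) (L + ε) (by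
      intro n
      split_ifs with h
      · exact h.le
      · simp; linarith)
    have hy : mk 𝕜 U x = mk 𝕜 U y := by
      rw [mk_eq_iff]
      refine tendsto_const_nhds.congr' ?_
      filter_upwards [hA] with n hn
      show (0:ℝ) = ‖x n - (if ‖x n‖ < L + ε then x n else 0)‖
      rw [if_pos hn]; simp
    rw [hy]
    refine (Submodule.Quotient.norm_mk_le _ y).trans ?_
    refine lp.norm_le_of_forall_le (by linarith) (fun n => ?_)
    show ‖(if ‖x n‖ < L + ε then x n else 0)‖ ≤ L + ε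
    split_ifs with h
    · exact h.le
    · simp; linarith
  have h2 : L ≤ ‖mk 𝕜 U x‖ := by
    refine le_of_forall_pos_le_add (fun ε hε => ?_)
    obtain ⟨y, hy, hyn⟩ := Submodule.Quotient.norm_mk_lt (S := nullSeq 𝕜 E U) (mk 𝕜 U x) hε
    have hy' : mk 𝕜 U y = mk 𝕜 U x := hy
    have hyn' : ‖y‖ < ‖mk 𝕜 U x‖ + ε := hyn
    have hxy : Tendsto (fun n => ‖y n - x n‖) U (𝓝 0) := mk_eq_iff.1 hy'
    have h3 : ∀ n, ‖x n‖ ≤ ‖y‖ + ‖y n - x n‖ := by
      intro n
      have h4 : ‖x n‖ ≤ ‖y n‖ + ‖y n - x n‖ := by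
        have := norm_sub_le (y n) (y n - x n)
        simpa using this
      exact h4.trans (add_le_add (norm_apply_le y n) le_rfl)
    have h5 : L ≤ ‖y‖ + 0 := le_of_tendsto_of_tendsto' hL (hxy.const_add ‖y‖) h3
    linarith
  rw [le_antisymm h1 h2]
  exact hL

theorem norm_mk_le_of (x : LInf E) (C : ℝ) (h : ∀ᶠ n in (U : Filter ℕ), ‖x n‖ ≤ C) :
    ‖mk 𝕜 U x‖ ≤ C := le_of_tendsto (tendsto_norm_mk x) h

/-- Coordinatewise application of a bounded sequence of operators. -/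
def coordMap (T : ℕ → E →L[𝕜] E) (C : ℝ) (hT : ∀ n, ‖T n‖ ≤ C) : LInf E →ₗ[𝕜] LInf E where
  toFun x := seq (fun n => T n (x n)) (C * ‖x‖) (fun n =>
    ((T n).le_opNorm _).trans (mul_le_mul (hT n) (norm_apply_le x n) (norm_nonneg _)
      ((norm_nonneg _).trans (hT n))))
  map_add' x y := by
    apply lp.ext; funext n
    show T n (x n + y n) = T n (x n) + T n (y n)
    simp
  map_smul' c x := by
    apply lp.ext; funext n
    show T n (c • x n) = c • T n (x n)
    simp

theorem coordMap_apply (T : ℕ → E →L[𝕜] E) (C : ℝ) (hT : ∀ n, ‖T n‖ ≤ C) (x : LInf E) (n : ℕ) :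
    coordMap T C hT x n = T n (x n) := rfl

/-- The ultraproduct of a bounded sequence of operators, acting on the ultrapower. -/
def upOp (U : Ultrafilter ℕ) (T : ℕ → E →L[𝕜] E) (C : ℝ) (hT : ∀ n, ‖T n‖ ≤ C) :
    UP 𝕜 E U →L[𝕜] UP 𝕜 E U :=
  LinearMap.mkContinuous (Submodule.mapQ (nullSeq 𝕜 E U) (nullSeq 𝕜 E U) (coordMap T C hT) (by
    intro x hx
    have h := (mem_null.1 hx).const_mul C
    rw [mul_zero] at h
    show Tendsto (fun n => ‖T n (x n)‖) U (𝓝 0)
    refine squeeze_zero (fun n => norm_nonneg _) (fun n => ?_) h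
    exact (T n).le_of_opNorm_le (hT n) _)) C (by
    intro w
    obtain ⟨x, rfl⟩ := mk_surjective w
    show ‖mk 𝕜 U (coordMap T C hT x)‖ ≤ C * ‖mk 𝕜 U x‖
    refine le_of_tendsto_of_tendsto' (tendsto_norm_mk _) ((tendsto_norm_mk x).const_mul C) ?_
    intro n
    exact (T n).le_of_opNorm_le (hT n) _)

theorem upOp_mk (T : ℕ → E →L[𝕜] E) (C : ℝ) (hT : ∀ n, ‖T n‖ ≤ C) (x : LInf E) :
    upOp U T C hT (mk 𝕜 U x) = mk 𝕜 U (coordMap T C hT x) := rfl

/-- The ultrapower `T^U` of an operator. -/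
def upMap (U : Ultrafilter ℕ) (T : E →L[𝕜] E) : UP 𝕜 E U →L[𝕜] UP 𝕜 E U :=
  upOp U (fun _ => T) ‖T‖ (fun _ => le_rfl)

theorem upMap_mk (T : E →L[𝕜] E) (x y : LInf E) (h : ∀ n, y n = T (x n)) :
    upMap U T (mk 𝕜 U x) = mk 𝕜 U y := by
  show mk 𝕜 U (coordMap _ _ _ x) = _
  congr 1
  apply lp.ext; funext n
  exact (h n).symm

/-- The functional on the ultrapower given by a bounded sequence of functionals. -/
def upFun (U : Ultrafilter ℕ) (φ : ℕ → E →L[𝕜] 𝕜) (C : ℝ) (hφ : ∀ n, ‖φ n‖ ≤ C) :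
    UP 𝕜 E U →L[𝕜] 𝕜 := by
  classical
  have hb : ∀ x : LInf E, ∀ n, ‖φ n (x n)‖ ≤ C * ‖x‖ := fun x n =>
    ((φ n).le_opNorm _).trans (mul_le_mul (hφ n) (norm_apply_le x n) (norm_nonneg _)
      ((norm_nonneg _).trans (hφ n)))
  have hl : ∀ x : LInf E, Tendsto (fun n => φ n (x n)) U (𝓝 (limUnder (U : Filter ℕ) (fun n => φ n (x n)))) := by
    intro x
    obtain ⟨d, hd⟩ := exists_lim U (fun n => φ n (x n)) (C * ‖x‖) (hb x)
    exact tendsto_nhds_limUnder ⟨d, hd⟩
  exact LinearMap.mkContinuous (Submodule.liftQ (nullSeq 𝕜 E U)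
    { toFun := fun x => limUnder (U : Filter ℕ) (fun n => φ n (x n))
      map_add' := by
        intro x y
        refine tendsto_nhds_unique (hl (x + y)) ?_
        have := (hl x).add (hl y)
        refine this.congr (fun n => ?_)
        show φ n (x n) + φ n (y n) = φ n (x n + y n)
        simp
      map_smul' := by
        intro c x
        refine tendsto_nhds_unique (hl (c • x)) ?_
        have := (hl x).const_smul c
        refine this.congr (fun n => ?_)
        show c • φ n (x n) = φ n (c • x n)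
        simp } (by
      intro x hx
      rw [LinearMap.mem_ker]
      refine tendsto_nhds_unique (hl x) ?_
      rw [tendsto_zero_iff_norm_tendsto_zero]
      have h := (mem_null.1 hx).const_mul C
      rw [mul_zero] at h
      exact squeeze_zero (fun n => norm_nonneg _) (fun n => (φ n).le_of_opNorm_le (hφ n) _) h)) C (by
    intro w
    obtain ⟨x, rfl⟩ := mk_surjective w
    show ‖limUnder (U : Filter ℕ) (fun n => φ n (x n))‖ ≤ C * ‖mk 𝕜 U x‖
    refine le_of_tendsto_of_tendsto' (hl x).norm ((tendsto_norm_mk x).const_mul C) ?_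
    intro n
    exact (φ n).le_of_opNorm_le (hφ n) _)

theorem upFun_mk (φ : ℕ → E →L[𝕜] 𝕜) (C : ℝ) (hφ : ∀ n, ‖φ n‖ ≤ C) (x : LInf E) :
    Tendsto (fun n => φ n (x n)) U (𝓝 (upFun U φ C hφ (mk 𝕜 U x))) := by
  have hb : ∀ n, ‖φ n (x n)‖ ≤ C * ‖x‖ := fun n =>
    ((φ n).le_opNorm _).trans (mul_le_mul (hφ n) (norm_apply_le x n) (norm_nonneg _)
      ((norm_nonneg _).trans (hφ n)))
  obtain ⟨d, hd⟩ := exists_lim U (fun n => φ n (x n)) (C * ‖x‖) hb
  exact tendsto_nhds_limUnder ⟨d, hd⟩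

end Pool.Agent.H32UP
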