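import Mathlib
import Pool.Agent.H32UP.UP

/-!
Operators on ultrapowers: approximation by ultrapower operators, and an obstruction to
norm-bounded approximation.
-/

noncomputable section

namespace Pool.Agent.H32UP

open Filter Topology ENNReal

variable {𝕜 : Type*} [RCLike 𝕜] {E : Type*} [NormedAddCommGroup E] [NormedSpace 𝕜 E]
  {U : Ultrafilter ℕ}

/-- An upper square-function (Khintchine) bound for a sequence of vectors. -/
def Khin (𝕜 : Type*) [RCLike 𝕜] {E : Type*} [NormedAddCommGroup E] [NormedSpace 𝕜 E]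
    (b : ℕ → E) (K : ℝ) : Prop :=
  ∀ (F : Finset ℕ) (c : ℕ → 𝕜), ‖∑ m ∈ F, c m • b m‖ ≤ K * Real.sqrt (∑ m ∈ F, ‖c m‖^2)

theorem bessel {a : ℕ → E →L[𝕜] 𝕜} {K : ℝ} (hK : 0 ≤ K) (ha : Khin 𝕜 a K) (x : E)
    (F : Finset ℕ) : ∑ m ∈ F, ‖a m x‖^2 ≤ (K * ‖x‖)^2 := by
  set S := ∑ m ∈ F, ‖a m x‖^2 with hS
  have hS0 : 0 ≤ S := Finset.sum_nonneg (fun m _ => by positivity)
  have h1 := ha F (fun m => (starRingEnd 𝕜) (a m x))
  have h2 : (∑ m ∈ F, (starRingEnd 𝕜) (a m x) • a m) x = (S : 𝕜) := by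
    rw [_root_.sum_apply, hS]
    push_cast
    refine Finset.sum_congr rfl (fun m _ => ?_)
    show (starRingEnd 𝕜) (a m x) * a m x = _
    rw [RCLike.conj_mul]
  have h3 : S ≤ K * Real.sqrt S * ‖x‖ := by
    have h4 := (∑ m ∈ F, (starRingEnd 𝕜) (a m x) • a m).le_of_opNorm_le h1 x
    rw [h2] at h4
    have h5 : ‖(S : 𝕜)‖ = S := by rw [RCLike.norm_ofReal, abs_of_nonneg hS0]
    rw [h5] at h4
    have h6 : ∑ m ∈ F, ‖(starRingEnd 𝕜) (a m x)‖^2 = S := by
      rw [hS]; exact Finset.sum_congr rfl (fun m _ => by rw [RCLike.norm_conj])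
    rw [h6] at h4
    exact h4
  rcases hS0.eq_or_lt with h0 | h0
  · rw [← h0]; positivity
  · have h7 : 0 < Real.sqrt S := Real.sqrt_pos.2 h0
    have h8 : Real.sqrt S * Real.sqrt S = S := Real.mul_self_sqrt hS0
    have h9 : Real.sqrt S ≤ K * ‖x‖ := by
      by_contra hc
      push Not at hc
      nlinarith
    calc S = Real.sqrt S ^ 2 := by rw [sq, h8]
      _ ≤ _ := by gcongr

theorem khin_summable [CompleteSpace E] {b : ℕ → E} {K : ℝ} (hK : 0 ≤ K) (hb : Khin 𝕜 b K)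
    {c : ℕ → 𝕜} {C : ℝ} (hc : ∀ F : Finset ℕ, ∑ m ∈ F, ‖c m‖^2 ≤ C) :
    Summable (fun m => c m • b m) := by
  have hs : Summable (fun m => ‖c m‖^2) := summable_of_sum_le (fun m => by positivity) hc
  rw [summable_iff_vanishing_norm]
  intro ε hε
  obtain ⟨δ, hδ, hδ'⟩ : ∃ δ : ℝ, 0 < δ ∧ K * Real.sqrt δ < ε := by
    refine ⟨(ε / (2 * (K + 1)))^2, by positivity, ?_⟩
    rw [Real.sqrt_sq (by positivity)]
    rw [mul_div_assoc', div_lt_iff₀ (by positivity)]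
    nlinarith
  obtain ⟨s, hs'⟩ := summable_iff_vanishing_norm.1 hs δ hδ
  refine ⟨s, fun t ht => ?_⟩
  refine (hb t c).trans_lt (lt_of_le_of_lt ?_ hδ')
  have := hs' t ht
  exact mul_le_mul_of_nonneg_left (Real.sqrt_le_sqrt ((le_abs_self _).trans this.le)) hK

theorem khin_tsum_le [CompleteSpace E] {b : ℕ → E} {K : ℝ} (hK : 0 ≤ K) (hb : Khin 𝕜 b K)
    {c : ℕ → 𝕜} {C : ℝ} (hc : ∀ F : Finset ℕ, ∑ m ∈ F, ‖c m‖^2 ≤ C) :
    ‖∑' m, c m • b m‖ ≤ K * Real.sqrt C := by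
  refine le_of_tendsto' (khin_summable hK hb hc).hasSum.norm (fun F => ?_)
  exact (hb F c).trans (mul_le_mul_of_nonneg_left (Real.sqrt_le_sqrt (hc F)) hK)

open Classical in
/-- The coefficients restricted to a set of indices. -/
def coef (a : ℕ → E →L[𝕜] 𝕜) (A : Set ℕ) (x : E) (m : ℕ) : 𝕜 := if m ∈ A then a m x else 0

theorem coef_bound {a : ℕ → E →L[𝕜] 𝕜} {K : ℝ} (hK : 0 ≤ K) (ha : Khin 𝕜 a K) (A : Set ℕ) (x : E)
    (F : Finset ℕ) : ∑ m ∈ F, ‖coef a A x m‖^2 ≤ (K * ‖x‖)^2 := by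
  refine le_trans (Finset.sum_le_sum (fun m _ => ?_)) (bessel hK ha x F)
  unfold coef
  split_ifs
  · exact le_rfl
  · simp

/-- The operator `∑_{m ∈ A} a_m ⊗ b_m`. -/
def TA [CompleteSpace E] (a : ℕ → E →L[𝕜] 𝕜) (b : ℕ → E) {K L : ℝ} (hK : 0 ≤ K) (ha : Khin 𝕜 a K)
    (hL : 0 ≤ L) (hb : Khin 𝕜 b L) (A : Set ℕ) : E →L[𝕜] E :=
  LinearMap.mkContinuous
    { toFun := fun x => ∑' m, coef a A x m • b m
      map_add' := by
        intro x y
        rw [← (khin_summable hL hb (coef_bound hK ha A x)).tsum_add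
          (khin_summable hL hb (coef_bound hK ha A y))]
        refine tsum_congr (fun m => ?_)
        unfold coef
        split_ifs
        · rw [map_add, add_smul]
        · simp
      map_smul' := by
        intro r x
        rw [RingHom.id_apply, ← tsum_const_smul'']
        refine tsum_congr (fun m => ?_)
        unfold coef
        split_ifs
        · rw [map_smul, smul_assoc]
        · simp } (L * K) (by
    intro x
    have h := khin_tsum_le hL hb (coef_bound hK ha A x)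
    rw [Real.sqrt_sq (by positivity)] at h
    rw [mul_assoc]
    exact h)

theorem TA_apply [CompleteSpace E] (a : ℕ → E →L[𝕜] 𝕜) (b : ℕ → E) {K L : ℝ} (hK : 0 ≤ K)
    (ha : Khin 𝕜 a K) (hL : 0 ≤ L) (hb : Khin 𝕜 b L) (A : Set ℕ) (x : E) :
    TA a b hK ha hL hb A x = ∑' m, coef a A x m • b m := rfl

theorem TA_diff [CompleteSpace E] (a : ℕ → E →L[𝕜] 𝕜) (b : ℕ → E) {K L : ℝ} (hK : 0 ≤ K)
    (ha : Khin 𝕜 a K) (hL : 0 ≤ L) (hb : Khin 𝕜 b L) (A : Set ℕ) (x : E) {n : ℕ} (hn : n ∈ A)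
    {ε : ℝ} (hε : ∀ F : Finset ℕ, (F : Set ℕ) ⊆ A → n ∉ F → ∑ m ∈ F, ‖a m x‖^2 ≤ ε) :
    ‖TA a b hK ha hL hb A x - a n x • b n‖ ≤ L * Real.sqrt ε := by
  classical
  have hs := (khin_summable hL hb (coef_bound hK ha A x)).hasSum
  have hs2 := (hs.sub_const (a n x • b n)).norm
  refine le_of_tendsto hs2 ?_
  filter_upwards [eventually_ge_atTop ({n} : Finset ℕ)] with F hF
  have hnF : n ∈ F := by simpa using hF
  have h1 : ∑ m ∈ F, coef a A x m • b m - a n x • b n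
      = ∑ m ∈ F.erase n, coef a A x m • b m := by
    rw [← Finset.sum_erase_add _ _ hnF]
    have : coef a A x n = a n x := by unfold coef; rw [if_pos hn]
    rw [this]; simp
  rw [h1]
  refine (hb _ _).trans (mul_le_mul_of_nonneg_left (Real.sqrt_le_sqrt ?_) hL)
  have h2 : ∑ m ∈ F.erase n, ‖coef a A x m‖^2 = ∑ m ∈ (F.erase n).filter (· ∈ A), ‖a m x‖^2 := by
    rw [Finset.sum_filter]
    refine Finset.sum_congr rfl (fun m _ => ?_)
    unfold coef
    split_ifs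
    · rfl
    · simp
  rw [h2]
  apply hε
  · intro m hm
    exact (Finset.mem_filter.1 (Finset.mem_coe.1 hm)).2
  · intro h
    simp at h

/-- The rank one operators `a_n ⊗ b_n`. -/
def rk (a : ℕ → E →L[𝕜] 𝕜) (b : ℕ → E) (n : ℕ) : E →L[𝕜] E := (a n).smulRight (b n)

@[simp] theorem rk_apply (a : ℕ → E →L[𝕜] 𝕜) (b : ℕ → E) (n : ℕ) (x : E) :
    rk a b n x = a n x • b n := rfl

/-- The set of all ultrapower operators. -/
def upSet (𝕜 : Type*) [RCLike 𝕜] (E : Type*) [NormedAddCommGroup E] [NormedSpace 𝕜 E]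
    (U : Ultrafilter ℕ) : Set (UP 𝕜 E U →WOT[𝕜] UP 𝕜 E U) :=
  {W | ∃ T : E →L[𝕜] E, W = ContinuousLinearMapWOT.ofCLM (upMap U T)}

/-- The set of all ultrapower operators of norm at most `r`. -/
def upBall (𝕜 : Type*) [RCLike 𝕜] (E : Type*) [NormedAddCommGroup E] [NormedSpace 𝕜 E]
    (U : Ultrafilter ℕ) (r : ℝ) : Set (UP 𝕜 E U →WOT[𝕜] UP 𝕜 E U) :=
  {W | ∃ T : E →L[𝕜] E, ‖T‖ ≤ r ∧ W = ContinuousLinearMapWOT.ofCLM (upMap U T)}

/-- Approximation: for selective `U`, the ultraproduct of the rank one operators `a_n ⊗ b_n` is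
in the closure of the ultrapower operators. -/
theorem approx [CompleteSpace E] (hU : IsSelective U) {a : ℕ → E →L[𝕜] 𝕜} {b : ℕ → E} {K L : ℝ}
    (hK : 0 ≤ K) (ha : Khin 𝕜 a K) (hL : 0 ≤ L) (hb : Khin 𝕜 b L) (C : ℝ)
    (hC : ∀ n, ‖rk a b n‖ ≤ C) :
    ContinuousLinearMapWOT.ofCLM (upOp U (rk a b) C hC) ∈ closure (upSet 𝕜 E U) := by
  classical
  let l : Filter (Set ℕ) := (U : Filter ℕ).smallSets ⊓ 𝓟 {A | A ∈ U}
  have hl : l.NeBot := by
    rw [inf_principal_neBot_iff]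
    intro s hs
    obtain ⟨A, hA, hA'⟩ := eventually_smallSets.1 hs
    exact ⟨A, hA' A subset_rfl, hA⟩
  refine mem_closure_of_tendsto (b := l)
    (f := fun A => ContinuousLinearMapWOT.ofCLM (upMap U (TA a b hK ha hL hb A))) ?_
    (Eventually.of_forall (fun A => ⟨_, rfl⟩))
  rw [ContinuousLinearMapWOT.tendsto_iff_forall_dual_apply_tendsto]
  intro w φ
  refine (φ.continuous.tendsto _).comp ?_
  obtain ⟨x, rfl⟩ := mk_surjective w
  rw [Metric.tendsto_nhds]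
  intro ε hε
  obtain ⟨δ, hδ, hδ'⟩ : ∃ δ : ℝ, 0 < δ ∧ L * Real.sqrt δ < ε := by
    refine ⟨(ε / (2 * (L + 1)))^2, by positivity, ?_⟩
    rw [Real.sqrt_sq (by positivity)]
    rw [mul_div_assoc', div_lt_iff₀ (by positivity)]
    nlinarith
  obtain ⟨A₀, hA₀, h₀⟩ := hU.offDiag (fun n m => ‖a m (x n)‖^2) ((K * ‖x‖)^2)
    (fun n m => by positivity) (fun n F => (bessel hK ha (x n) F).trans (by
      have := norm_apply_le x n
      gcongr)) hδ
  rw [eventually_inf_principal]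
  refine eventually_smallSets.2 ⟨A₀, hA₀, fun A hA hAU => ?_⟩
  rw [dist_eq_norm]
  change ‖upMap U (TA a b hK ha hL hb A) (mk 𝕜 U x) - upOp U (rk a b) C hC (mk 𝕜 U x)‖ < ε
  rw [upOp_mk, upMap, upOp_mk]
  have e : mk 𝕜 U (coordMap (fun _ => TA a b hK ha hL hb A) _ (fun _ => le_rfl) x) -
      mk 𝕜 U (coordMap (rk a b) C hC x) =
      mk 𝕜 U (coordMap (fun _ => TA a b hK ha hL hb A) _ (fun _ => le_rfl) x -
        coordMap (rk a b) C hC x) := rfl
  rw [e]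
  refine lt_of_le_of_lt (norm_mk_le_of _ (L * Real.sqrt δ) ?_) hδ'
  filter_upwards [hAU] with n hn
  exact TA_diff a b hK ha hL hb A (x n) hn
    (fun F hF hnF => h₀ n (hA hn) F (hF.trans hA) hnF)

/-- Norm limits: if `b_n^{(j)} → b_n` and `a_n^{(j)} → a_n` in the sense that the operators
converge uniformly, the ultraproducts stay in the closure. -/
theorem closure_of_norm {S : UP 𝕜 E U →L[𝕜] UP 𝕜 E U} {A : Set (UP 𝕜 E U →WOT[𝕜] UP 𝕜 E U)}
    (h : ∀ ε > 0, ∃ S' : UP 𝕜 E U →L[𝕜] UP 𝕜 E U, ‖S' - S‖ ≤ ε ∧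
      ContinuousLinearMapWOT.ofCLM S' ∈ closure A) :
    ContinuousLinearMapWOT.ofCLM S ∈ closure A := by
  choose! F hF hF' using h
  have h2 : Tendsto (fun n : ℕ => ContinuousLinearMapWOT.ofCLM (F (1 / ((n : ℝ) + 1)))) atTop
      (𝓝 (ContinuousLinearMapWOT.ofCLM S)) := by
    rw [ContinuousLinearMapWOT.tendsto_iff_forall_dual_apply_tendsto]
    intro w φ
    refine (φ.continuous.tendsto _).comp ?_
    refine tendsto_iff_norm_sub_tendsto_zero.2 ?_
    have h0 := (tendsto_one_div_add_atTop_nhds_zero_nat (𝕜 := ℝ)).mul_const ‖w‖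
    rw [zero_mul] at h0
    refine squeeze_zero (fun n => norm_nonneg _) (fun n => ?_) h0
    exact (F (1 / ((n : ℝ) + 1)) - S).le_of_opNorm_le (hF _ (by positivity)) w
  have h3 := mem_closure_of_tendsto h2 (Eventually.of_forall (fun n => hF' (1 / ((n : ℝ) + 1))
    (by positivity)))
  rwa [closure_closure] at h3

theorem upOp_sub_le {T T' : ℕ → E →L[𝕜] E} {C C' : ℝ} (hT : ∀ n, ‖T n‖ ≤ C) (hT' : ∀ n, ‖T' n‖ ≤ C')
    {δ : ℝ} (hδ : 0 ≤ δ) (h : ∀ n, ‖T n - T' n‖ ≤ δ) : ‖upOp U T C hT - upOp U T' C' hT'‖ ≤ δ := by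
  refine ContinuousLinearMap.opNorm_le_bound _ hδ (fun w => ?_)
  obtain ⟨x, rfl⟩ := mk_surjective w
  show ‖mk 𝕜 U (coordMap T C hT x - coordMap T' C' hT' x)‖ ≤ δ * ‖mk 𝕜 U x‖
  refine le_of_tendsto_of_tendsto' (tendsto_norm_mk _) ((tendsto_norm_mk x).const_mul δ) ?_
  intro n
  exact (T n - T' n).le_of_opNorm_le (h n) (x n)

/-- Choice of signs. -/
theorem signs (B : ℕ → ℕ → ℝ) (F : Finset ℕ) : ∃ s : ℕ → ℝ, (∀ n, s n = 1 ∨ s n = -1) ∧
    ∑ n ∈ F, B n n ≤ ∑ n ∈ F, ∑ m ∈ F, s n * s m * B n m := by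
  classical
  induction F using Finset.induction_on with
  | empty => exact ⟨fun _ => 1, fun _ => Or.inl rfl, by simp⟩
  | insert k F hk ih =>
    obtain ⟨s, hs, h⟩ := ih
    set R := ∑ n ∈ F, s n * (B n k + B k n) with hR
    let t : ℝ := if 0 ≤ R then 1 else -1
    have ht : t = 1 ∨ t = -1 := by
      by_cases h0 : 0 ≤ R
      · left; simp [t, h0]
      · right; simp [t, h0]
    have htR : 0 ≤ t * R := by
      by_cases h0 : 0 ≤ R
      · simp [t, h0]
      · simp only [t, h0, if_false]; linarith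
    refine ⟨fun n => if n = k then t else s n, fun n => ?_, ?_⟩
    · by_cases hn : n = k
      · simp only [hn, if_true]; exact ht
      · simp only [hn, if_false]; exact hs n
    · have e : ∀ n ∈ F, (if n = k then t else s n) = s n := by
        intro n hn
        rw [if_neg]; rintro rfl; exact hk hn
      rw [Finset.sum_insert hk, Finset.sum_insert hk, Finset.sum_insert hk]
      have e1 : ∑ m ∈ F, (if k = k then t else s k) * (if m = k then t else s m) * B k m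
          = ∑ m ∈ F, t * (s m * B k m) := by
        refine Finset.sum_congr rfl (fun m hm => ?_)
        rw [e m hm, if_pos rfl]; ring
      have e2 : ∑ n ∈ F, ∑ m ∈ insert k F, (if n = k then t else s n) * (if m = k then t else s m) * B n m
          = ∑ n ∈ F, t * (s n * B n k) + ∑ n ∈ F, ∑ m ∈ F, s n * s m * B n m := by
        rw [← Finset.sum_add_distrib]
        refine Finset.sum_congr rfl (fun n hn => ?_)
        rw [Finset.sum_insert hk, e n hn, if_pos rfl]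
        congr 1
        · ring
        · refine Finset.sum_congr rfl (fun m hm => ?_)
          rw [e m hm]
      dsimp only
      rw [e1, e2, if_pos rfl]
      have e3 : t * t = 1 := by rcases ht with h | h <;> rw [h] <;> norm_num
      have e4 : t * R = ∑ m ∈ F, t * (s m * B k m) + ∑ n ∈ F, t * (s n * B n k) := by
        rw [hR, Finset.mul_sum, ← Finset.sum_add_distrib]
        exact Finset.sum_congr rfl (fun m _ => by ring)
      rw [e3]
      linarith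

/-- The obstruction to norm-bounded approximation. -/
theorem obstruction (hU : IsSelective U) {a : ℕ → E →L[𝕜] 𝕜} {b : ℕ → E} (C : ℝ)
    (hC : ∀ n, ‖rk a b n‖ ≤ C) {r : ℝ} (hr : 0 ≤ r)
    (hmem : ContinuousLinearMapWOT.ofCLM (upOp U (rk a b) C hC) ∈ closure (upBall 𝕜 E U r))
    (u : ℕ → E) (φ : ℕ → E →L[𝕜] 𝕜) (Cu Cφ : ℝ) (hu : ∀ n, ‖u n‖ ≤ Cu) (hφ : ∀ n, ‖φ n‖ ≤ Cφ)
    (s : ℝ) (hs : 0 < s) (hs' : ∀ n, a n (u n) * φ n (b n) = (s : 𝕜))
    (D D' : ℝ) (hD : 0 ≤ D) (hD' : 0 ≤ D') (N₀ : ℕ)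
    (h1 : ∀ F : Finset ℕ, N₀ ≤ F.card → ∀ e : ℕ → ℝ, (∀ n, e n = 1 ∨ e n = -1) →
      ‖∑ n ∈ F, (e n : 𝕜) • u n‖ ≤ D * Real.sqrt F.card)
    (h2 : ∀ F : Finset ℕ, N₀ ≤ F.card → ∀ e : ℕ → ℝ, (∀ n, e n = 1 ∨ e n = -1) →
      ‖∑ n ∈ F, (e n : 𝕜) • φ n‖ ≤ D' * Real.sqrt F.card) :
    s ≤ 4 * (r * D * D') := by
  classical
  let x : LInf E := seq u Cu hu
  let Φ := upFun U φ Cφ hφ
  have hcont := ContinuousLinearMapWOT.continuous_dual_apply (𝕜₁ := 𝕜) (𝕜₂ := 𝕜)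
    (σ := RingHom.id 𝕜) (mk 𝕜 U x) Φ
  -- value of the limit operator
  have hval : Φ (upOp U (rk a b) C hC (mk 𝕜 U x)) = (s : 𝕜) := by
    rw [upOp_mk]
    refine tendsto_nhds_unique (upFun_mk φ Cφ hφ _) ?_
    refine tendsto_const_nhds.congr (fun n => ?_)
    show (s : 𝕜) = φ n (a n (u n) • b n)
    rw [map_smul, smul_eq_mul, hs' n]
  -- an operator of norm at most r nearby
  have hopen : IsOpen {W : UP 𝕜 E U →WOT[𝕜] UP 𝕜 E U | s / 2 < RCLike.re (Φ (W (mk 𝕜 U x)))} :=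
    isOpen_lt continuous_const (RCLike.continuous_re.comp hcont)
  obtain ⟨W, hW, T, hT, rfl⟩ := mem_closure_iff.1 hmem _ hopen (by
    show s / 2 < RCLike.re (Φ (upOp U (rk a b) C hC (mk 𝕜 U x)))
    rw [hval, RCLike.ofReal_re]; linarith)
  have hlim : Tendsto (fun n => RCLike.re (φ n (T (u n)))) U
      (𝓝 (RCLike.re (Φ (upMap U T (mk 𝕜 U x))))) := by
    have := upFun_mk φ Cφ hφ (U := U) (coordMap (fun _ => T) ‖T‖ (fun _ => le_rfl) x)
    exact (RCLike.continuous_re.tendsto _).comp this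
  have hev : ∀ᶠ n in (U : Filter ℕ), s / 4 < RCLike.re (φ n (T (u n))) :=
    hlim.eventually (lt_mem_nhds (by
      have : s / 2 < RCLike.re (Φ (upMap U T (mk 𝕜 U x))) := hW
      linarith))
  have hinf := hU.infinite hev
  obtain ⟨F, hF, hcard⟩ := hinf.exists_subset_card_eq (N₀ + 1)
  obtain ⟨e, he, hsum⟩ := signs (fun n m => RCLike.re (φ m (T (u n)))) F
  have hlow : (F.card : ℝ) * (s / 4) ≤ ∑ n ∈ F, RCLike.re (φ n (T (u n))) := by
    rw [← nsmul_eq_mul]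
    refine Finset.card_nsmul_le_sum _ _ _ (fun n hn => ?_)
    exact (hF (Finset.mem_coe.2 hn)).le
  have hid : ∑ n ∈ F, ∑ m ∈ F, e n * e m * RCLike.re (φ m (T (u n)))
      = RCLike.re ((∑ m ∈ F, (e m : 𝕜) • φ m) (T (∑ n ∈ F, (e n : 𝕜) • u n))) := by
    rw [map_sum, map_sum, map_sum]
    refine Finset.sum_congr rfl (fun n _ => ?_)
    rw [_root_.sum_apply, map_sum]
    refine Finset.sum_congr rfl (fun m _ => ?_)
    have e0 : ((e m : 𝕜) • φ m) (T ((e n : 𝕜) • u n)) = (e m : 𝕜) * ((e n : 𝕜) * φ m (T (u n))) := by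
      rw [map_smul, map_smul, smul_eq_mul]
      show (e n : 𝕜) * ((e m : 𝕜) * φ m (T (u n))) = _
      ring
    rw [e0, RCLike.re_ofReal_mul, RCLike.re_ofReal_mul]
    ring
  have hup : RCLike.re ((∑ m ∈ F, (e m : 𝕜) • φ m) (T (∑ n ∈ F, (e n : 𝕜) • u n)))
      ≤ (D' * Real.sqrt F.card) * (r * (D * Real.sqrt F.card)) := by
    refine (RCLike.re_le_norm _).trans ?_
    refine (ContinuousLinearMap.le_opNorm _ _).trans ?_
    refine mul_le_mul (h2 F (by omega) e he) ?_ (norm_nonneg _) (by positivity)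
    refine (T.le_opNorm _).trans ?_
    exact mul_le_mul hT (h1 F (by omega) e he) (norm_nonneg _) hr
  have hc0 : (0:ℝ) < F.card := by rw [hcard]; positivity
  have hsq : Real.sqrt F.card * Real.sqrt F.card = F.card := Real.mul_self_sqrt hc0.le
  have h5 : (F.card : ℝ) * (s / 4) ≤ (F.card : ℝ) * (r * D * D') := by
    calc (F.card : ℝ) * (s / 4) ≤ (D' * Real.sqrt F.card) * (r * (D * Real.sqrt F.card)) := by
          linarith [hsum, hlow, hup, hid]
      _ = (Real.sqrt F.card * Real.sqrt F.card) * (r * D * D') := by ring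
      _ = _ := by rw [hsq]
  have h6 := le_of_mul_le_mul_left h5 hc0
  linarith

end Pool.Agent.H32UP
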