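import Mathlib

/-!
Independent symmetric random variables on the unit interval and their moments.
-/

noncomputable section

namespace Pool.Agent.H32UP

open Filter Topology ENNReal MeasureTheory ProbabilityTheory

/-- Lebesgue measure on the unit interval, as a measure on the line. -/
abbrev mu0 : Measure ℝ := volume.restrict (Set.Icc (0:ℝ) 1)

/-- Lebesgue measure on the symmetric interval of length one. -/
abbrev nu0 : Measure ℝ := volume.restrict (Set.Icc (-(1/2):ℝ) (1/2))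

instance : IsProbabilityMeasure mu0 := ⟨by simp [mu0]⟩

instance : IsProbabilityMeasure nu0 := ⟨by
  simp only [nu0, MeasurableSet.univ, Measure.restrict_apply, Set.univ_inter, Real.volume_Icc]
  norm_num⟩

theorem nu0_neg : MeasurePreserving (fun v : ℝ => -v) nu0 nu0 := by
  have h := (Measure.measurePreserving_neg (volume : Measure ℝ)).restrict_preimage
    (s := Set.Icc (-(1/2):ℝ) (1/2)) measurableSet_Icc
  have h2 : (Neg.neg ⁻¹' Set.Icc (-(1/2):ℝ) (1/2)) = Set.Icc (-(1/2):ℝ) (1/2) := by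
    ext x; simp only [Set.mem_preimage, Set.mem_Icc]; constructor <;> rintro ⟨h1, h2⟩ <;> constructor <;> linarith
  rw [h2] at h
  exact h

/-- Existence of an independent sequence with law `nu0` on the unit interval. -/
theorem exists_indep : ∃ V : ℕ → ℝ → ℝ, (∀ n, MeasurePreserving (V n) mu0 nu0) ∧ iIndepFun V mu0 := by
  obtain ⟨f, hf, hmap⟩ := Measure.exists_measurable_map_eq
    (Measure.infinitePi (fun _ : ℕ => nu0))
  have hproj : MeasurePreserving (Set.projIcc (0:ℝ) 1 zero_le_one) mu0 (volume : Measure unitInterval) := by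
    refine ⟨continuous_projIcc.measurable, ?_⟩
    have h1 : (volume : Measure unitInterval).map Subtype.val = mu0 := by
      exact map_comap_subtype_coe measurableSet_Icc volume
    rw [← h1, Measure.map_map continuous_projIcc.measurable measurable_subtype_coe]
    have : Set.projIcc (0:ℝ) 1 zero_le_one ∘ Subtype.val = id := by
      funext x; simp
    rw [this, Measure.map_id]
  have hG : MeasurePreserving (fun t : ℝ => f (Set.projIcc (0:ℝ) 1 zero_le_one t)) mu0
      (Measure.infinitePi (fun _ : ℕ => nu0)) := by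
    refine ⟨hf.comp continuous_projIcc.measurable, ?_⟩
    rw [← hmap, ← hproj.map_eq, Measure.map_map hf continuous_projIcc.measurable]
    rfl
  have hV : ∀ n, MeasurePreserving (fun t : ℝ => f (Set.projIcc (0:ℝ) 1 zero_le_one t) n) mu0 nu0 := by
    intro n
    have h2 : MeasurePreserving (fun x : ℕ → ℝ => x n) (Measure.infinitePi (fun _ : ℕ => nu0)) nu0 :=
      ⟨measurable_pi_apply n, Measure.infinitePi_map_eval _ n⟩
    exact h2.comp hG
  refine ⟨fun n t => f (Set.projIcc (0:ℝ) 1 zero_le_one t) n, hV, ?_⟩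
  rw [iIndepFun_iff_map_fun_eq_infinitePi_map (fun n => (hV n).measurable)]
  have h3 : ∀ n, Measure.map (fun t : ℝ => f (Set.projIcc (0:ℝ) 1 zero_le_one t) n) mu0 = nu0 :=
    fun n => (hV n).map_eq
  simp_rw [h3]
  exact hG.map_eq

/-- Elementary bound of a power by exponentials. -/
theorem rpow_le_exp (s : ℝ) (y : ℝ) (hs : 0 ≤ s) :
    |y| ^ s ≤ (Nat.factorial ⌈s⌉₊ : ℝ) * (Real.exp y + Real.exp (-y)) := by
  have hk : (1:ℝ) ≤ (Nat.factorial ⌈s⌉₊ : ℝ) := by exact_mod_cast Nat.one_le_iff_ne_zero.2 (Nat.factorial_ne_zero _)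
  have hexp : Real.exp |y| ≤ Real.exp y + Real.exp (-y) := by
    rcases abs_cases y with ⟨h, _⟩ | ⟨h, _⟩ <;> rw [h]
    · linarith [Real.exp_pos (-y)]
    · linarith [Real.exp_pos y]
  have hexp0 : 1 ≤ Real.exp |y| := Real.one_le_exp (abs_nonneg y)
  rcases le_total |y| 1 with h | h
  · calc |y| ^ s ≤ 1 := Real.rpow_le_one (abs_nonneg y) h hs
      _ ≤ 1 * Real.exp |y| := by linarith
      _ ≤ _ := mul_le_mul hk hexp (by positivity) (by positivity)
  · calc |y| ^ s ≤ |y| ^ (⌈s⌉₊ : ℝ) := Real.rpow_le_rpow_of_exponent_le h (Nat.le_ceil s)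
      _ = |y| ^ ⌈s⌉₊ := Real.rpow_natCast _ _
      _ ≤ (Nat.factorial ⌈s⌉₊ : ℝ) * Real.exp |y| := by
          have := Real.pow_div_factorial_le_exp |y| (abs_nonneg y) ⌈s⌉₊
          rw [div_le_iff₀ (by positivity)] at this
          linarith
      _ ≤ _ := mul_le_mul_of_nonneg_left hexp (by positivity)

/-- The constant in the moment bounds. -/
def Cp (p : ℝ≥0∞) : ℝ := ((Nat.factorial ⌈p.toReal⌉₊ : ℝ) * (2 * Real.exp 1)) ^ (p.toReal⁻¹)

theorem Cp_nonneg (p : ℝ≥0∞) : 0 ≤ Cp p := by unfold Cp; positivity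

theorem norm_le_of_exp {p : ℝ≥0∞} (hp0 : p ≠ 0) (hp : p ≠ ∞) {S : ℝ → ℝ} (hSm : Measurable S)
    {B : ℝ} (hB : ∀ t, |S t| ≤ B) {L : ℝ} (hL : 0 < L) (h1 : mgf S mu0 L⁻¹ ≤ Real.exp 1)
    (h2 : mgf S mu0 (-L⁻¹) ≤ Real.exp 1) : eLpNorm S p mu0 ≤ ENNReal.ofReal (Cp p * L) := by
  have hs : 0 < p.toReal := ENNReal.toReal_pos hp0 hp
  have hmem : MemLp S p mu0 := MemLp.of_bound hSm.aestronglyMeasurable B (ae_of_all _ hB)
  rw [hmem.eLpNorm_eq_integral_rpow_norm hp0 hp]
  apply ENNReal.ofReal_le_ofReal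
  have hint : ∀ r : ℝ, Integrable (fun t => Real.exp (r * S t)) mu0 := by
    intro r
    refine Integrable.of_bound (by fun_prop) (Real.exp (|r| * B)) (ae_of_all _ (fun t => ?_))
    rw [Real.norm_eq_abs, abs_of_pos (Real.exp_pos _)]
    apply Real.exp_le_exp.2
    calc r * S t ≤ |r * S t| := le_abs_self _
      _ = |r| * |S t| := abs_mul _ _
      _ ≤ _ := mul_le_mul_of_nonneg_left (hB t) (abs_nonneg r)
  have hpt : ∀ t, ‖S t‖ ^ p.toReal ≤ L ^ p.toReal * ((Nat.factorial ⌈p.toReal⌉₊ : ℝ) *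
      (Real.exp (L⁻¹ * S t) + Real.exp (-L⁻¹ * S t))) := by
    intro t
    have h3 := rpow_le_exp p.toReal (L⁻¹ * S t) hs.le
    rw [← neg_mul] at h3
    have h4 : ‖S t‖ = L * |L⁻¹ * S t| := by
      rw [abs_mul, abs_of_pos (inv_pos.2 hL), Real.norm_eq_abs]; field_simp
    rw [h4, Real.mul_rpow hL.le (abs_nonneg _)]
    exact mul_le_mul_of_nonneg_left h3 (by positivity)
  have hI : ∫ t, ‖S t‖ ^ p.toReal ∂mu0 ≤ L ^ p.toReal * ((Nat.factorial ⌈p.toReal⌉₊ : ℝ) * (2 * Real.exp 1)) := by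
    calc ∫ t, ‖S t‖ ^ p.toReal ∂mu0 ≤ ∫ t, L ^ p.toReal * ((Nat.factorial ⌈p.toReal⌉₊ : ℝ) *
          (Real.exp (L⁻¹ * S t) + Real.exp (-L⁻¹ * S t))) ∂mu0 := by
          refine integral_mono_of_nonneg (ae_of_all _ (fun t => by positivity)) ?_ (ae_of_all _ hpt)
          exact (((hint _).add (hint _)).const_mul _).const_mul _
      _ = L ^ p.toReal * ((Nat.factorial ⌈p.toReal⌉₊ : ℝ) * (mgf S mu0 L⁻¹ + mgf S mu0 (-L⁻¹))) := by
          rw [integral_const_mul, integral_const_mul, integral_add (hint _) (hint _)]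
          rfl
      _ ≤ _ := by
          refine mul_le_mul_of_nonneg_left (mul_le_mul_of_nonneg_left ?_ (by positivity)) (by positivity)
          linarith
  calc (∫ t, ‖S t‖ ^ p.toReal ∂mu0) ^ (p.toReal⁻¹)
      ≤ (L ^ p.toReal * ((Nat.factorial ⌈p.toReal⌉₊ : ℝ) * (2 * Real.exp 1))) ^ (p.toReal⁻¹) :=
        Real.rpow_le_rpow (integral_nonneg (fun t => by positivity)) hI (by positivity)
    _ = Cp p * L := by
        rw [Real.mul_rpow (by positivity) (by positivity), ← Real.rpow_mul hL.le,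
          mul_inv_cancel₀ hs.ne', Real.rpow_one, Cp, mul_comm]

/-- Data of an odd bounded function. -/
structure OddBdd (h : ℝ → ℝ) (K : ℝ) : Prop where
  meas : Measurable h
  odd : ∀ v, h (-v) = - h v
  bdd : ∀ v, |h v| ≤ K

theorem OddBdd.integrable {h : ℝ → ℝ} {K : ℝ} (H : OddBdd h K) : Integrable h nu0 :=
  Integrable.of_bound H.meas.aestronglyMeasurable K (ae_of_all _ H.bdd)

theorem OddBdd.integral_zero {h : ℝ → ℝ} {K : ℝ} (H : OddBdd h K) : ∫ v, h v ∂nu0 = 0 := by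
  have h1 : ∫ v, h (-v) ∂nu0 = ∫ v, h v ∂nu0 :=
    nu0_neg.integral_comp (Homeomorph.neg ℝ).measurableEmbedding h
  have h2 : ∫ v, h (-v) ∂nu0 = - ∫ v, h v ∂nu0 := by
    rw [← integral_neg]; exact integral_congr_ae (ae_of_all _ (fun v => H.odd v))
  linarith

variable {V : ℕ → ℝ → ℝ}

theorem mgf_eq (hV : ∀ n, MeasurePreserving (V n) mu0 nu0) {h : ℝ → ℝ} (hm : Measurable h) (n : ℕ) (t : ℝ) :
    mgf (fun x => h (V n x)) mu0 t = ∫ v, Real.exp (t * h v) ∂nu0 := by
  unfold mgf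
  rw [← (hV n).map_eq]
  exact (integral_map (hV n).measurable.aemeasurable
    (by fun_prop : Measurable (fun v => Real.exp (t * h v))).aestronglyMeasurable).symm

theorem mgf_sum (hV : ∀ n, MeasurePreserving (V n) mu0 nu0) (hi : iIndepFun V mu0) {h : ℝ → ℝ}
    (hm : Measurable h) (F : Finset ℕ) (c : ℕ → ℝ) (t : ℝ) :
    mgf (fun x => ∑ n ∈ F, c n * h (V n x)) mu0 t = ∏ n ∈ F, ∫ v, Real.exp ((t * c n) * h v) ∂nu0 := by
  have h1 : iIndepFun (fun n x => c n * h (V n x)) mu0 :=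
    hi.comp (fun n v => c n * h v) (fun n => by fun_prop)
  have h2 := h1.mgf_sum (fun n => (by
    have := (hV n).measurable
    fun_prop : Measurable (fun x => c n * h (V n x)))) F (t := t)
  have h3 : (∑ n ∈ F, fun x => c n * h (V n x)) = fun x => ∑ n ∈ F, c n * h (V n x) := by
    funext x; simp
  rw [h3] at h2
  rw [h2]
  refine Finset.prod_congr rfl (fun n _ => ?_)
  rw [mgf_eq hV (h := fun v => c n * h v) (by fun_prop)]
  congr 1
  funext v
  ring_nf

theorem exp_hoeffding {h : ℝ → ℝ} {K : ℝ} (H : OddBdd h K) (t : ℝ) :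
    ∫ v, Real.exp (t * h v) ∂nu0 ≤ Real.exp (K ^ 2 * t ^ 2 / 2) := by
  have hK : 0 ≤ K := (abs_nonneg _).trans (H.bdd 0)
  have h1 := (hasSubgaussianMGF_of_mem_Icc_of_integral_eq_zero (μ := nu0) (X := h) (a := -K) (b := K)
    H.meas.aemeasurable (ae_of_all _ (fun v => abs_le.1 (H.bdd v))) H.integral_zero).mgf_le t
  refine h1.trans (Real.exp_le_exp.2 (le_of_eq ?_))
  congr 2
  push_cast
  rw [Real.norm_eq_abs, show K - -K = 2 * K by ring, abs_of_nonneg (by positivity)]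
  ring

theorem exp_variance {h : ℝ → ℝ} {K : ℝ} (H : OddBdd h K) (t : ℝ) (ht : |t| * K ≤ 1) :
    ∫ v, Real.exp (t * h v) ∂nu0 ≤ Real.exp (t ^ 2 * ∫ v, h v ^ 2 ∂nu0) := by
  have hsq : Integrable (fun v => h v ^ 2) nu0 := by
    refine Integrable.of_bound (H.meas.pow_const 2).aestronglyMeasurable (K^2) (ae_of_all _ (fun v => ?_))
    rw [Real.norm_eq_abs, abs_pow]
    exact pow_le_pow_left₀ (abs_nonneg _) (H.bdd v) 2
  have hpt : ∀ v, Real.exp (t * h v) ≤ 1 + t * h v + t ^ 2 * h v ^ 2 := by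
    intro v
    have h1 : |t * h v| ≤ 1 := by
      rw [abs_mul]
      exact (mul_le_mul_of_nonneg_left (H.bdd v) (abs_nonneg t)).trans ht
    have h2 := Real.abs_exp_sub_one_sub_id_le h1
    have h3 := (abs_le.1 h2).2
    nlinarith
  calc ∫ v, Real.exp (t * h v) ∂nu0 ≤ ∫ v, (1 + t * h v + t ^ 2 * h v ^ 2) ∂nu0 := by
        refine integral_mono_of_nonneg (ae_of_all _ (fun v => (Real.exp_pos _).le)) ?_ (ae_of_all _ hpt)
        exact ((integrable_const _).add (H.integrable.const_mul _)).add (hsq.const_mul _)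
    _ = 1 + t ^ 2 * ∫ v, h v ^ 2 ∂nu0 := by
        have i1 : Integrable (fun v => 1 + t * h v) nu0 :=
          (integrable_const _).add (H.integrable.const_mul _)
        rw [integral_add i1 (hsq.const_mul _),
          integral_add (integrable_const _) (H.integrable.const_mul _), integral_const_mul,
          integral_const_mul, H.integral_zero]
        simp
    _ ≤ _ := by linarith [Real.add_one_le_exp (t ^ 2 * ∫ v, h v ^ 2 ∂nu0)]

theorem sum_meas (hV : ∀ n, MeasurePreserving (V n) mu0 nu0) {h : ℝ → ℝ} (hm : Measurable h)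
    (F : Finset ℕ) (c : ℕ → ℝ) : Measurable (fun x => ∑ n ∈ F, c n * h (V n x)) := by
  refine Finset.measurable_sum _ (fun n _ => ?_)
  have := (hV n).measurable
  fun_prop

theorem sum_bdd {h : ℝ → ℝ} {K : ℝ} (H : OddBdd h K) (F : Finset ℕ) (c : ℕ → ℝ) (x : ℝ) :
    |∑ n ∈ F, c n * h (V n x)| ≤ ∑ n ∈ F, |c n| * K := by
  refine (Finset.abs_sum_le_sum_abs _ _).trans (Finset.sum_le_sum (fun n _ => ?_))
  rw [abs_mul]
  exact mul_le_mul_of_nonneg_left (H.bdd _) (abs_nonneg _)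

/-- Khintchine-type upper bound. -/
theorem khin_bound (hV : ∀ n, MeasurePreserving (V n) mu0 nu0) (hi : iIndepFun V mu0)
    {p : ℝ≥0∞} (hp0 : p ≠ 0) (hp : p ≠ ∞) {h : ℝ → ℝ} {K : ℝ} (H : OddBdd h K) (F : Finset ℕ)
    (c : ℕ → ℝ) :
    eLpNorm (fun x => ∑ n ∈ F, c n * h (V n x)) p mu0
      ≤ ENNReal.ofReal (Cp p * (K * Real.sqrt (∑ n ∈ F, c n ^ 2))) := by
  have hK : 0 ≤ K := (abs_nonneg _).trans (H.bdd 0)
  set Q := ∑ n ∈ F, c n ^ 2 with hQ
  have hQ0 : 0 ≤ Q := Finset.sum_nonneg (fun n _ => sq_nonneg _)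
  by_cases h0 : K * Real.sqrt Q = 0
  · have hz : (fun x => ∑ n ∈ F, c n * h (V n x)) = fun _ => 0 := by
      funext x
      apply Finset.sum_eq_zero
      intro n hn
      rcases mul_eq_zero.1 h0 with h1 | h1
      · have := H.bdd (V n x)
        rw [h1] at this
        rw [abs_nonpos_iff.1 this, mul_zero]
      · have h2 : Q = 0 := by
          rcases (Real.sqrt_eq_zero hQ0).1 h1 with h
          exact h
        have h3 := (Finset.sum_eq_zero_iff_of_nonneg (fun n _ => sq_nonneg (c n))).1 h2 n hn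
        rw [pow_eq_zero_iff (by norm_num)] at h3
        rw [h3, zero_mul]
    rw [hz]
    simp
  · have hL : 0 < K * Real.sqrt Q := lt_of_le_of_ne (by positivity) (Ne.symm h0)
    have key : ∀ t : ℝ, t ^ 2 = (K * Real.sqrt Q)⁻¹ ^ 2 →
        mgf (fun x => ∑ n ∈ F, c n * h (V n x)) mu0 t ≤ Real.exp 1 := by
      intro t ht
      rw [mgf_sum hV hi H.meas]
      calc ∏ n ∈ F, ∫ v, Real.exp ((t * c n) * h v) ∂nu0
          ≤ ∏ n ∈ F, Real.exp (K ^ 2 * (t * c n) ^ 2 / 2) :=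
            Finset.prod_le_prod (fun n _ => integral_nonneg (fun v => (Real.exp_pos _).le))
              (fun n _ => exp_hoeffding H _)
        _ = Real.exp (∑ n ∈ F, K ^ 2 * (t * c n) ^ 2 / 2) := (Real.exp_sum _ _).symm
        _ ≤ Real.exp 1 := by
            apply Real.exp_le_exp.2
            have h1 : ∑ n ∈ F, K ^ 2 * (t * c n) ^ 2 / 2 = K ^ 2 * t ^ 2 * Q / 2 := by
              rw [hQ, Finset.mul_sum, Finset.sum_div]
              exact Finset.sum_congr rfl (fun n _ => by ring)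
            rw [h1, ht]
            have h2 : K ^ 2 * (K * Real.sqrt Q)⁻¹ ^ 2 * Q = 1 := by
              have h3 : (K * Real.sqrt Q) ^ 2 = K ^ 2 * Q := by rw [mul_pow, Real.sq_sqrt hQ0]
              rw [inv_pow, h3]
              have h4 : K ^ 2 * Q ≠ 0 := by rw [← h3]; positivity
              rw [mul_right_comm, mul_inv_cancel₀ h4]
            rw [h2]; norm_num
    exact norm_le_of_exp hp0 hp (sum_meas hV H.meas F c) (sum_bdd H F c) hL (key _ rfl)
      (key _ (by ring))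

/-- Central-limit-type upper bound. -/
theorem clt_bound (hV : ∀ n, MeasurePreserving (V n) mu0 nu0) (hi : iIndepFun V mu0)
    {p : ℝ≥0∞} (hp0 : p ≠ 0) (hp : p ≠ ∞) {h : ℝ → ℝ} {K : ℝ} (H : OddBdd h K) (F : Finset ℕ)
    (e : ℕ → ℝ) (he : ∀ n, e n = 1 ∨ e n = -1) (hσ : 0 < ∫ v, h v ^ 2 ∂nu0)
    (hF : K ^ 2 ≤ (∫ v, h v ^ 2 ∂nu0) * F.card) (hF0 : 0 < F.card) :
    eLpNorm (fun x => ∑ n ∈ F, e n * h (V n x)) p mu0
      ≤ ENNReal.ofReal (Cp p * (Real.sqrt (∫ v, h v ^ 2 ∂nu0) * Real.sqrt F.card)) := by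
  have hK : 0 ≤ K := (abs_nonneg _).trans (H.bdd 0)
  set σ2 := ∫ v, h v ^ 2 ∂nu0 with hσ2
  have hN : (0:ℝ) < F.card := by exact_mod_cast hF0
  have hL : 0 < Real.sqrt σ2 * Real.sqrt F.card := by positivity
  have hL2 : (Real.sqrt σ2 * Real.sqrt F.card) ^ 2 = σ2 * F.card := by
    rw [mul_pow, Real.sq_sqrt hσ.le, Real.sq_sqrt hN.le]
  have he2 : ∀ n, e n ^ 2 = 1 := fun n => by rcases he n with h | h <;> rw [h] <;> norm_num
  have key : ∀ t : ℝ, |t| = (Real.sqrt σ2 * Real.sqrt F.card)⁻¹ →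
      mgf (fun x => ∑ n ∈ F, e n * h (V n x)) mu0 t ≤ Real.exp 1 := by
    intro t ht
    have htK : |t| * K ≤ 1 := by
      rw [ht, inv_mul_le_iff₀ hL, mul_one]
      apply le_of_sq_le_sq _ hL.le
      rw [hL2]; exact hF
    have ht2 : t ^ 2 = (σ2 * F.card)⁻¹ := by
      rw [← sq_abs, ht, inv_pow, hL2]
    rw [mgf_sum hV hi H.meas]
    calc ∏ n ∈ F, ∫ v, Real.exp ((t * e n) * h v) ∂nu0
        ≤ ∏ n ∈ F, Real.exp ((t * e n) ^ 2 * σ2) := by
          refine Finset.prod_le_prod (fun n _ => integral_nonneg (fun v => (Real.exp_pos _).le))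
            (fun n _ => exp_variance H _ ?_)
          rw [abs_mul]
          have : |e n| = 1 := by rcases he n with h | h <;> rw [h] <;> norm_num
          rw [this, mul_one]; exact htK
      _ = Real.exp (∑ n ∈ F, (t * e n) ^ 2 * σ2) := (Real.exp_sum _ _).symm
      _ ≤ Real.exp 1 := by
          apply Real.exp_le_exp.2
          have h1 : ∑ n ∈ F, (t * e n) ^ 2 * σ2 = F.card * (t ^ 2 * σ2) := by
            rw [← nsmul_eq_mul, ← Finset.sum_const]
            exact Finset.sum_congr rfl (fun n _ => by rw [mul_pow, he2 n, mul_one])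
          rw [h1, ht2]
          apply le_of_eq
          field_simp
  refine norm_le_of_exp hp0 hp (sum_meas hV H.meas F e) (sum_bdd H F e) hL (key _ ?_) (key _ ?_)
  · rw [abs_of_pos (inv_pos.2 hL)]
  · rw [abs_neg, abs_of_pos (inv_pos.2 hL)]

end Pool.Agent.H32UP
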