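import Mathlib
import Pool.Agent.H32UP.Abs
import Pool.Agent.H32UP.Prob

/-!
Assembly: operators in the closure of the ultrapower operators on `L^p` of the unit interval which
are in no closure of a norm ball.
-/

noncomputable section

namespace Pool.Agent.H32UP

open Filter Topology ENNReal MeasureTheory ProbabilityTheory

variable {𝕜 : Type*} [RCLike 𝕜] {V : ℕ → ℝ → ℝ}

/-- The vectors of `L^p` given by a function of the independent variables. -/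
def el (𝕜 : Type*) [RCLike 𝕜] {p : ℝ≥0∞} (hV : ∀ n, MeasurePreserving (V n) mu0 nu0) {α : ℝ → ℝ}
    (hα : MemLp α p nu0) (n : ℕ) : Lp 𝕜 p mu0 :=
  ((hα.ofReal (K := 𝕜)).comp_measurePreserving (hV n)).toLp _

theorem el_coe {p : ℝ≥0∞} (hV : ∀ n, MeasurePreserving (V n) mu0 nu0) {α : ℝ → ℝ}
    (hα : MemLp α p nu0) (n : ℕ) : ⇑(el 𝕜 hV hα n) =ᵐ[mu0] fun x => (α (V n x) : 𝕜) :=
  MemLp.coeFn_toLp _

theorem sum_el_coe {p : ℝ≥0∞} (hV : ∀ n, MeasurePreserving (V n) mu0 nu0) {α : ℝ → ℝ}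
    (hα : MemLp α p nu0) (F : Finset ℕ) (c : ℕ → ℝ) :
    ⇑(∑ n ∈ F, (c n : 𝕜) • el 𝕜 hV hα n) =ᵐ[mu0]
      fun x => ((∑ n ∈ F, c n * α (V n x) : ℝ) : 𝕜) := by
  classical
  induction F using Finset.induction_on with
  | empty =>
    simp only [Finset.sum_empty, RCLike.ofReal_zero]
    exact Lp.coeFn_zero _ _ _
  | insert k F hk ih =>
    rw [Finset.sum_insert hk]
    filter_upwards [Lp.coeFn_add ((c k : 𝕜) • el 𝕜 hV hα k) (∑ n ∈ F, (c n : 𝕜) • el 𝕜 hV hα n),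
      Lp.coeFn_smul (c k : 𝕜) (el 𝕜 hV hα k), ih, el_coe (𝕜 := 𝕜) hV hα k] with x h1 h2 h3 h4
    rw [h1, Pi.add_apply, h2, Pi.smul_apply, h3, h4, Finset.sum_insert hk]
    push_cast
    rfl

theorem norm_sum_el {p : ℝ≥0∞} (hV : ∀ n, MeasurePreserving (V n) mu0 nu0) {α : ℝ → ℝ}
    (hα : MemLp α p nu0) (F : Finset ℕ) (c : ℕ → ℝ) :
    ‖∑ n ∈ F, (c n : 𝕜) • el 𝕜 hV hα n‖
      = (eLpNorm (fun x => ∑ n ∈ F, c n * α (V n x)) p mu0).toReal := by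
  rw [Lp.norm_def]
  congr 1
  refine eLpNorm_congr_norm_ae ?_
  filter_upwards [sum_el_coe (𝕜 := 𝕜) hV hα F c] with x hx
  rw [hx, RCLike.norm_ofReal, Real.norm_eq_abs]

theorem norm_el_sub {p : ℝ≥0∞} (hV : ∀ n, MeasurePreserving (V n) mu0 nu0) {α β : ℝ → ℝ}
    (hα : MemLp α p nu0) (hβ : MemLp β p nu0) (n : ℕ) :
    ‖el 𝕜 hV hα n - el 𝕜 hV hβ n‖ = (eLpNorm (fun v => α v - β v) p nu0).toReal := by
  rw [Lp.norm_def]
  congr 1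
  have h1 : eLpNorm (⇑(el 𝕜 hV hα n - el 𝕜 hV hβ n)) p mu0
      = eLpNorm ((fun v => α v - β v) ∘ V n) p mu0 := by
    refine eLpNorm_congr_norm_ae ?_
    filter_upwards [Lp.coeFn_sub (el 𝕜 hV hα n) (el 𝕜 hV hβ n), el_coe (𝕜 := 𝕜) hV hα n,
      el_coe (𝕜 := 𝕜) hV hβ n] with x h1 h2 h3
    rw [h1, Pi.sub_apply, h2, h3, ← RCLike.ofReal_sub, RCLike.norm_ofReal, Real.norm_eq_abs]
    rfl
  rw [h1]
  exact eLpNorm_comp_measurePreserving (hα.sub hβ).1 (hV n)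

theorem norm_el {p : ℝ≥0∞} (hV : ∀ n, MeasurePreserving (V n) mu0 nu0) {α : ℝ → ℝ}
    (hα : MemLp α p nu0) (n : ℕ) :
    ‖el 𝕜 hV hα n‖ = (eLpNorm α p nu0).toReal := by
  rw [Lp.norm_def]
  congr 1
  have h1 : eLpNorm (⇑(el 𝕜 hV hα n)) p mu0 = eLpNorm (α ∘ V n) p mu0 := by
    refine eLpNorm_congr_norm_ae ?_
    filter_upwards [el_coe (𝕜 := 𝕜) hV hα n] with x h2
    rw [h2, RCLike.norm_ofReal, Real.norm_eq_abs]
    rfl
  rw [h1]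
  exact eLpNorm_comp_measurePreserving hα.1 (hV n)

theorem Khin_of_real {E : Type*} [NormedAddCommGroup E] [NormedSpace 𝕜 E] {b : ℕ → E} {K : ℝ}
    (hK : 0 ≤ K)
    (h : ∀ (F : Finset ℕ) (c : ℕ → ℝ), ‖∑ n ∈ F, (c n : 𝕜) • b n‖ ≤ K * Real.sqrt (∑ n ∈ F, c n ^ 2)) :
    Khin 𝕜 b (2 * K) := by
  intro F c
  have h1 : ∑ n ∈ F, c n • b n = ∑ n ∈ F, ((RCLike.re (c n) : ℝ) : 𝕜) • b n
      + (RCLike.I : 𝕜) • ∑ n ∈ F, ((RCLike.im (c n) : ℝ) : 𝕜) • b n := by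
    rw [Finset.smul_sum, ← Finset.sum_add_distrib]
    refine Finset.sum_congr rfl (fun n _ => ?_)
    rw [smul_smul, ← add_smul]
    congr 1
    rw [mul_comm RCLike.I]
    exact (RCLike.re_add_im (c n)).symm
  have hI : ‖(RCLike.I : 𝕜)‖ ≤ 1 := by
    by_cases h0 : (RCLike.I : 𝕜) = 0
    · rw [h0]; simp
    · exact (RCLike.norm_I_of_ne_zero h0).le
  have h2 : ∀ f : 𝕜 → ℝ, (∀ z, f z ^ 2 ≤ ‖z‖ ^ 2) → ‖∑ n ∈ F, ((f (c n) : ℝ) : 𝕜) • b n‖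
      ≤ K * Real.sqrt (∑ n ∈ F, ‖c n‖ ^ 2) := fun f hf =>
    (h F (fun n => f (c n))).trans (mul_le_mul_of_nonneg_left (Real.sqrt_le_sqrt
      (Finset.sum_le_sum (fun n _ => hf (c n)))) hK)
  have hre := h2 RCLike.re (fun z => by
    rw [← sq_abs]; exact pow_le_pow_left₀ (abs_nonneg _) (RCLike.abs_re_le_norm z) 2)
  have him := h2 RCLike.im (fun z => by
    rw [← sq_abs]; exact pow_le_pow_left₀ (abs_nonneg _) (RCLike.abs_im_le_norm z) 2)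
  rw [h1]
  refine (norm_add_le _ _).trans ?_
  rw [norm_smul]
  have h3 : ‖(RCLike.I : 𝕜)‖ * ‖∑ n ∈ F, ((RCLike.im (c n) : ℝ) : 𝕜) • b n‖
      ≤ 1 * (K * Real.sqrt (∑ n ∈ F, ‖c n‖ ^ 2)) :=
    mul_le_mul hI him (norm_nonneg _) zero_le_one
  linarith

theorem OddBdd.memLp {h : ℝ → ℝ} {K : ℝ} (H : OddBdd h K) (p : ℝ≥0∞) : MemLp h p nu0 :=
  MemLp.of_bound H.meas.aestronglyMeasurable K (ae_of_all _ H.bdd)

theorem khin_el (hV : ∀ n, MeasurePreserving (V n) mu0 nu0) (hi : iIndepFun V mu0)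
    {p : ℝ≥0∞} (hp0 : p ≠ 0) (hp : p ≠ ∞) [Fact (1 ≤ p)] {h : ℝ → ℝ} {K : ℝ} (H : OddBdd h K) :
    Khin 𝕜 (el 𝕜 hV (H.memLp p)) (2 * (Cp p * K)) := by
  have hK : 0 ≤ K := (abs_nonneg _).trans (H.bdd 0)
  have hC := Cp_nonneg p
  refine Khin_of_real (by positivity) (fun F c => ?_)
  rw [norm_sum_el]
  refine (ENNReal.toReal_mono ENNReal.ofReal_ne_top (khin_bound hV hi hp0 hp H F c)).trans ?_
  rw [ENNReal.toReal_ofReal (by positivity), mul_assoc]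

theorem clt_el (hV : ∀ n, MeasurePreserving (V n) mu0 nu0) (hi : iIndepFun V mu0)
    {p : ℝ≥0∞} (hp0 : p ≠ 0) (hp : p ≠ ∞) [Fact (1 ≤ p)] {h : ℝ → ℝ} {K : ℝ} (H : OddBdd h K)
    (F : Finset ℕ)
    (e : ℕ → ℝ) (he : ∀ n, e n = 1 ∨ e n = -1) (hσ : 0 < ∫ v, h v ^ 2 ∂nu0)
    (hF : K ^ 2 ≤ (∫ v, h v ^ 2 ∂nu0) * F.card) (hF0 : 0 < F.card) :
    ‖∑ n ∈ F, (e n : 𝕜) • el 𝕜 hV (H.memLp p) n‖
      ≤ (Cp p * Real.sqrt (∫ v, h v ^ 2 ∂nu0)) * Real.sqrt F.card := by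
  have hC := Cp_nonneg p
  rw [norm_sum_el]
  refine (ENNReal.toReal_mono ENNReal.ofReal_ne_top (clt_bound hV hi hp0 hp H F e he hσ hF hF0)).trans ?_
  rw [ENNReal.toReal_ofReal (by positivity), mul_assoc]

/-- The functionals on `L^p` given by elements of `L^q`. -/
def fn (𝕜 : Type*) [RCLike 𝕜] (p q : ℝ≥0∞) [Fact (1 ≤ p)] [Fact (1 ≤ q)] [HolderConjugate q p] :
    Lp 𝕜 q mu0 →L[𝕜] Lp 𝕜 p mu0 →L[𝕜] 𝕜 :=
  (ContinuousLinearMap.mul 𝕜 𝕜).lpPairing mu0 q p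

theorem fn_el (p q : ℝ≥0∞) [Fact (1 ≤ p)] [Fact (1 ≤ q)] [HolderConjugate q p]
    (hV : ∀ n, MeasurePreserving (V n) mu0 nu0) {α β : ℝ → ℝ}
    (hα : MemLp α q nu0) (hβ : MemLp β p nu0) (n : ℕ) :
    fn 𝕜 p q (el 𝕜 hV hα n) (el 𝕜 hV hβ n) = ((∫ v, α v * β v ∂nu0 : ℝ) : 𝕜) := by
  unfold fn
  rw [ContinuousLinearMap.lpPairing_eq_integral]
  have h1 : ∫ x, (ContinuousLinearMap.mul 𝕜 𝕜) (el 𝕜 hV hα n x) (el 𝕜 hV hβ n x) ∂mu0
      = ∫ x, ((α (V n x) * β (V n x) : ℝ) : 𝕜) ∂mu0 := by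
    refine integral_congr_ae ?_
    filter_upwards [el_coe (𝕜 := 𝕜) hV hα n, el_coe (𝕜 := 𝕜) hV hβ n] with x h2 h3
    rw [h2, h3, ContinuousLinearMap.mul_apply', RCLike.ofReal_mul]
  rw [h1, integral_ofReal]
  congr 1
  rw [← (hV n).map_eq]
  have hm : AEStronglyMeasurable (fun v => α v * β v) (Measure.map (V n) mu0) := by
    rw [(hV n).map_eq]; exact hα.1.mul hβ.1
  exact (integral_map (hV n).measurable.aemeasurable hm).symm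

theorem upBall_mono {E : Type*} [NormedAddCommGroup E] [NormedSpace 𝕜 E] {U : Ultrafilter ℕ}
    {r r' : ℝ} (h : r ≤ r') : upBall 𝕜 E U r ⊆ upBall 𝕜 E U r' := by
  rintro W ⟨T, hT, hW⟩
  exact ⟨T, hT.trans h, hW⟩

theorem main_generic (𝕜 : Type*) [RCLike 𝕜] (p q : ℝ≥0∞) [Fact (1 ≤ p)] [Fact (1 ≤ q)]
    [HolderConjugate q p]
    (hp : p ≠ ∞) (hq : q ≠ ∞) {α β : ℝ → ℝ} (hα : MemLp α q nu0) (hβ : MemLp β p nu0)
    {αj βj : ℕ → ℝ → ℝ} {Kα Kβ : ℕ → ℝ} (hαj : ∀ j, OddBdd (αj j) (Kα j))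
    (hβj : ∀ j, OddBdd (βj j) (Kβ j))
    (hαc : ∀ ε > 0, ∃ j₀, ∀ j ≥ j₀, eLpNorm (fun v => αj j v - α v) q nu0 ≤ ENNReal.ofReal ε)
    (hβc : ∀ ε > 0, ∃ j₀, ∀ j ≥ j₀, eLpNorm (fun v => βj j v - β v) p nu0 ≤ ENNReal.ofReal ε)
    (hαα : ∀ j, ∫ v, α v * αj j v ∂nu0 = ∫ v, αj j v ^ 2 ∂nu0)
    (hββ : ∀ j, ∫ v, βj j v * β v ∂nu0 = ∫ v, βj j v ^ 2 ∂nu0)
    (hα0 : ∀ j, 0 < ∫ v, αj j v ^ 2 ∂nu0) (hβ0 : ∀ j, 0 < ∫ v, βj j v ^ 2 ∂nu0)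
    (hunb : ∀ M : ℝ, ∃ j, M < Real.sqrt (∫ v, αj j v ^ 2 ∂nu0) * Real.sqrt (∫ v, βj j v ^ 2 ∂nu0))
    {U : Ultrafilter ℕ} (hU : IsSelective U) :
    ∃ S : UP 𝕜 (Lp 𝕜 p mu0) U →L[𝕜] UP 𝕜 (Lp 𝕜 p mu0) U,
      ContinuousLinearMapWOT.ofCLM S ∈ closure (upSet 𝕜 (Lp 𝕜 p mu0) U) ∧
      ∀ r : ℝ, ContinuousLinearMapWOT.ofCLM S ∉ closure (upBall 𝕜 (Lp 𝕜 p mu0) U r) := by
  obtain ⟨V, hV, hi⟩ := exists_indep
  have hp0 : p ≠ 0 := (lt_of_lt_of_le one_pos (Fact.out : 1 ≤ p)).ne'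
  have hq0 : q ≠ 0 := (lt_of_lt_of_le one_pos (Fact.out : 1 ≤ q)).ne'
  set κ := ‖fn 𝕜 p q‖ with hκ
  have hκ0 : 0 ≤ κ := (fn 𝕜 p q).opNorm_nonneg
  let a : ℕ → Lp 𝕜 p mu0 →L[𝕜] 𝕜 := fun n => fn 𝕜 p q (el 𝕜 hV hα n)
  let b : ℕ → Lp 𝕜 p mu0 := el 𝕜 hV hβ
  let aj : ℕ → ℕ → Lp 𝕜 p mu0 →L[𝕜] 𝕜 := fun j n => fn 𝕜 p q (el 𝕜 hV ((hαj j).memLp q) n)
  let bj : ℕ → ℕ → Lp 𝕜 p mu0 := fun j => el 𝕜 hV ((hβj j).memLp p)
  set A := (eLpNorm α q nu0).toReal with hA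
  set B := (eLpNorm β p nu0).toReal with hB
  have ha : ∀ n, ‖a n‖ ≤ κ * A := fun n => by
    refine ((fn 𝕜 p q).le_opNorm _).trans ?_
    rw [norm_el]
  have hb : ∀ n, ‖b n‖ = B := fun n => norm_el hV hβ n
  have hrk : ∀ (a' : Lp 𝕜 p mu0 →L[𝕜] 𝕜) (b' : Lp 𝕜 p mu0), ‖a'.smulRight b'‖ = ‖a'‖ * ‖b'‖ :=
    fun a' b' => ContinuousLinearMap.norm_smulRight_apply a' b'
  have hC : ∀ n, ‖rk a b n‖ ≤ κ * A * B := fun n => by
    unfold rk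
    rw [hrk, hb]
    exact mul_le_mul_of_nonneg_right (ha n) ENNReal.toReal_nonneg
  refine ⟨upOp U (rk a b) _ hC, ?_, ?_⟩
  · apply closure_of_norm
    intro ε hε
    have hA0 : 0 ≤ A := ENNReal.toReal_nonneg
    have hB0 : 0 ≤ B := ENNReal.toReal_nonneg
    obtain ⟨δ, hδ, hδ1, hδε⟩ : ∃ δ : ℝ, 0 < δ ∧ δ ≤ 1 ∧ κ * δ * (B + 1) + κ * A * δ ≤ ε := by
      refine ⟨min 1 (ε / (κ * (B + 1) + κ * A + 1)), by positivity, min_le_left _ _, ?_⟩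
      set δ := min 1 (ε / (κ * (B + 1) + κ * A + 1))
      have h1 : δ ≤ ε / (κ * (B + 1) + κ * A + 1) := min_le_right _ _
      have h2 : 0 < κ * (B + 1) + κ * A + 1 := by positivity
      rw [le_div_iff₀ h2] at h1
      have h3 : 0 < δ := by positivity
      nlinarith
    obtain ⟨j₁, hj₁⟩ := hαc δ hδ
    obtain ⟨j₂, hj₂⟩ := hβc δ hδ
    set j := max j₁ j₂
    have h1 : ∀ n, ‖aj j n - a n‖ ≤ κ * δ := by
      intro n
      have e : aj j n - a n = fn 𝕜 p q (el 𝕜 hV ((hαj j).memLp q) n - el 𝕜 hV hα n) := by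
        rw [map_sub]
      rw [e]
      refine ((fn 𝕜 p q).le_opNorm _).trans (mul_le_mul_of_nonneg_left ?_ hκ0)
      rw [norm_el_sub]
      refine (ENNReal.toReal_mono ENNReal.ofReal_ne_top (hj₁ j (le_max_left _ _))).trans ?_
      rw [ENNReal.toReal_ofReal hδ.le]
    have h2 : ∀ n, ‖bj j n - b n‖ ≤ δ := by
      intro n
      rw [norm_el_sub]
      refine (ENNReal.toReal_mono ENNReal.ofReal_ne_top (hj₂ j (le_max_right _ _))).trans ?_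
      rw [ENNReal.toReal_ofReal hδ.le]
    have h3 : ∀ n, ‖rk (aj j) (bj j) n - rk a b n‖ ≤ ε := by
      intro n
      refine (ContinuousLinearMap.opNorm_le_bound _ hε.le (fun x => ?_))
      show ‖aj j n x • bj j n - a n x • b n‖ ≤ ε * ‖x‖
      have e : aj j n x • bj j n - a n x • b n = (aj j n - a n) x • bj j n + a n x • (bj j n - b n) := by
        show _ = (aj j n x - a n x) • bj j n + _
        rw [sub_smul, smul_sub]; abel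
      rw [e]
      refine (norm_add_le _ _).trans ?_
      rw [norm_smul, norm_smul]
      have hbj : ‖bj j n‖ ≤ B + 1 := by
        have := norm_le_norm_add_norm_sub' (bj j n) (b n)
        rw [hb] at this
        linarith [h2 n]
      have q1 : ‖(aj j n - a n) x‖ ≤ κ * δ * ‖x‖ := (aj j n - a n).le_of_opNorm_le (h1 n) x
      have q2 : ‖a n x‖ ≤ κ * A * ‖x‖ := (a n).le_of_opNorm_le (ha n) x
      calc ‖(aj j n - a n) x‖ * ‖bj j n‖ + ‖a n x‖ * ‖bj j n - b n‖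
          ≤ (κ * δ * ‖x‖) * (B + 1) + (κ * A * ‖x‖) * δ :=
            add_le_add (mul_le_mul q1 hbj (norm_nonneg _) (by positivity))
              (mul_le_mul q2 (h2 n) (norm_nonneg _) (by positivity))
        _ = (κ * δ * (B + 1) + κ * A * δ) * ‖x‖ := by ring
        _ ≤ ε * ‖x‖ := mul_le_mul_of_nonneg_right hδε (norm_nonneg _)
    have h4 : ∀ n, ‖rk (aj j) (bj j) n‖ ≤ κ * A * B + ε := fun n => by
      have h5 : ‖rk (aj j) (bj j) n‖ ≤ ‖rk a b n‖ + ‖rk (aj j) (bj j) n - rk a b n‖ :=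
        norm_le_norm_add_norm_sub' _ _
      linarith [hC n, h3 n]
    refine ⟨upOp U (rk (aj j) (bj j)) _ h4, upOp_sub_le h4 hC hε.le h3, ?_⟩
    have hKα : 0 ≤ Kα j := (abs_nonneg _).trans ((hαj j).bdd 0)
    have hKβ : 0 ≤ Kβ j := (abs_nonneg _).trans ((hβj j).bdd 0)
    have hCp := Cp_nonneg p
    have hCq := Cp_nonneg q
    have k1 : Khin 𝕜 (aj j) (κ * (2 * (Cp q * Kα j))) := by
      intro F c
      have e : ∑ m ∈ F, c m • aj j m = fn 𝕜 p q (∑ m ∈ F, c m • el 𝕜 hV ((hαj j).memLp q) m) := by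
        rw [map_sum]
        exact Finset.sum_congr rfl (fun m _ => by rw [map_smul])
      rw [e]
      refine ((fn 𝕜 p q).le_opNorm _).trans ?_
      rw [mul_assoc]
      exact mul_le_mul_of_nonneg_left (khin_el hV hi hq0 hq (hαj j) F c) hκ0
    have k2 : Khin 𝕜 (bj j) (2 * (Cp p * Kβ j)) := khin_el hV hi hp0 hp (hβj j)
    exact approx hU (by positivity) k1 (by positivity) k2 _ h4
  · intro r hr
    have hr' := closure_mono (upBall_mono (𝕜 := 𝕜) (E := Lp 𝕜 p mu0) (U := U) (le_max_left r 0)) hr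
    set R := max r 0
    have hR : 0 ≤ R := le_max_right _ _
    obtain ⟨j, hj⟩ := hunb (4 * (R * Cp p * (κ * Cp q)))
    set sa := Real.sqrt (∫ v, αj j v ^ 2 ∂nu0) with hsa
    set sb := Real.sqrt (∫ v, βj j v ^ 2 ∂nu0) with hsb
    have hsa0 : 0 < sa := Real.sqrt_pos.2 (hα0 j)
    have hsb0 : 0 < sb := Real.sqrt_pos.2 (hβ0 j)
    have hsa2 : ∫ v, αj j v ^ 2 ∂nu0 = sa * sa := (Real.mul_self_sqrt (hα0 j).le).symm
    have hsb2 : ∫ v, βj j v ^ 2 ∂nu0 = sb * sb := (Real.mul_self_sqrt (hβ0 j).le).symm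
    have hCp := Cp_nonneg p
    have hCq := Cp_nonneg q
    let u : ℕ → Lp 𝕜 p mu0 := el 𝕜 hV ((hαj j).memLp p)
    let φ : ℕ → Lp 𝕜 p mu0 →L[𝕜] 𝕜 := fun n => fn 𝕜 p q (el 𝕜 hV ((hβj j).memLp q) n)
    obtain ⟨N₁, hN₁⟩ := exists_nat_ge (Kα j ^ 2 / (∫ v, αj j v ^ 2 ∂nu0))
    obtain ⟨N₂, hN₂⟩ := exists_nat_ge (Kβ j ^ 2 / (∫ v, βj j v ^ 2 ∂nu0))
    have hobs := obstruction hU (κ * A * B) hC hR hr' u φ
      ((eLpNorm (αj j) p nu0).toReal) (κ * (eLpNorm (βj j) q nu0).toReal)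
      (fun n => (norm_el hV _ n).le) (fun n => by
        refine ((fn 𝕜 p q).le_opNorm _).trans ?_
        rw [norm_el])
      ((sa * sa) * (sb * sb)) (by positivity) (fun n => by
        show fn 𝕜 p q (el 𝕜 hV hα n) (el 𝕜 hV _ n) * fn 𝕜 p q (el 𝕜 hV _ n) (el 𝕜 hV hβ n) = _
        rw [fn_el, fn_el, hαα, hββ, hsa2, hsb2, ← RCLike.ofReal_mul])
      (Cp p * sa) (κ * (Cp q * sb)) (by positivity) (by positivity) (max (max N₁ N₂) 1)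
      (fun F hF e he => by
        have h1 : N₁ ≤ F.card := (le_max_left _ _).trans ((le_max_left _ _).trans hF)
        have h2 : 0 < F.card := (le_max_right _ _).trans hF
        have h3 : Kα j ^ 2 ≤ (∫ v, αj j v ^ 2 ∂nu0) * F.card := by
          have h4 : Kα j ^ 2 / (∫ v, αj j v ^ 2 ∂nu0) ≤ F.card := hN₁.trans (by exact_mod_cast h1)
          rw [div_le_iff₀ (hα0 j)] at h4
          linarith
        exact clt_el hV hi hp0 hp (hαj j) F e he (hα0 j) h3 h2)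
      (fun F hF e he => by
        have h1 : N₂ ≤ F.card := (le_max_right _ _).trans ((le_max_left _ _).trans hF)
        have h2 : 0 < F.card := (le_max_right _ _).trans hF
        have h3 : Kβ j ^ 2 ≤ (∫ v, βj j v ^ 2 ∂nu0) * F.card := by
          have h4 : Kβ j ^ 2 / (∫ v, βj j v ^ 2 ∂nu0) ≤ F.card := hN₂.trans (by exact_mod_cast h1)
          rw [div_le_iff₀ (hβ0 j)] at h4
          linarith
        have e1 : ∑ n ∈ F, (e n : 𝕜) • φ n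
            = fn 𝕜 p q (∑ n ∈ F, (e n : 𝕜) • el 𝕜 hV ((hβj j).memLp q) n) := by
          rw [map_sum]
          exact Finset.sum_congr rfl (fun m _ => by rw [map_smul])
        rw [e1]
        refine ((fn 𝕜 p q).le_opNorm _).trans ?_
        rw [mul_assoc]
        exact mul_le_mul_of_nonneg_left (clt_el hV hi hq0 hq (hβj j) F e he (hβ0 j) h3 h2) hκ0)
    have h5 : (sa * sb) * (sa * sb) ≤ (4 * (R * Cp p * (κ * Cp q))) * (sa * sb) := by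
      calc (sa * sb) * (sa * sb) = (sa * sa) * (sb * sb) := by ring
        _ ≤ _ := hobs
        _ = _ := by ring
    have h6 := le_of_mul_le_mul_right h5 (by positivity)
    linarith

end Pool.Agent.H32UP
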