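import Mathlib
import Pool.Agent.H32UP.Main

/-!
The concrete heavy-tailed odd function used for `MP_7518b9_an`.
-/

noncomputable section

namespace Pool.Agent.H32UP

open Filter Topology ENNReal MeasureTheory ProbabilityTheory

/-- The sign function. -/
def sg (v : ℝ) : ℝ := if 0 < v then 1 else if v < 0 then -1 else 0

/-- An odd function with square not integrable. -/
def g (v : ℝ) : ℝ := sg v * |v| ^ (-(1/2:ℝ))

/-- Its truncations. -/
def gj (j : ℕ) (v : ℝ) : ℝ := if 1/((j:ℝ)+3) ≤ |v| then g v else 0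

theorem sg_meas : Measurable sg := by
  unfold sg
  exact Measurable.ite measurableSet_Ioi measurable_const
    (Measurable.ite measurableSet_Iio measurable_const measurable_const)

theorem sg_neg (v : ℝ) : sg (-v) = - sg v := by
  unfold sg
  rcases lt_trichotomy v 0 with h | h | h
  · rw [if_pos (by linarith), if_neg (by linarith), if_pos h]; norm_num
  · subst h; simp
  · rw [if_neg (by linarith), if_pos (by linarith), if_pos h]

theorem sg_abs_le (v : ℝ) : |sg v| ≤ 1 := by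
  unfold sg; split_ifs <;> simp

theorem sg_sq {v : ℝ} (hv : v ≠ 0) : sg v ^ 2 = 1 := by
  unfold sg
  rcases lt_or_gt_of_ne hv with h | h
  · rw [if_neg (by linarith), if_pos h]; norm_num
  · rw [if_pos h]; norm_num

theorem sg_abs {v : ℝ} (hv : v ≠ 0) : |sg v| = 1 := by
  unfold sg
  rcases lt_or_gt_of_ne hv with h | h
  · rw [if_neg (by linarith), if_pos h]; norm_num
  · rw [if_pos h]; norm_num

theorem g_meas : Measurable g := by
  unfold g
  have := sg_meas
  exact sg_meas.mul (measurable_id.abs.pow_const _)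

theorem g_neg (v : ℝ) : g (-v) = - g v := by
  unfold g; rw [sg_neg, abs_neg]; ring

theorem gj_odd (j : ℕ) : OddBdd (gj j) ((j:ℝ)+3) where
  meas := by
    unfold gj
    exact Measurable.ite (measurableSet_le measurable_const measurable_id.abs) g_meas measurable_const
  odd := by
    intro v
    unfold gj
    rw [abs_neg, g_neg]
    split_ifs <;> simp
  bdd := by
    intro v
    unfold gj
    have h3 : (0:ℝ) < (j:ℝ) + 3 := by positivity
    split_ifs with h
    · have hv : 0 < |v| := lt_of_lt_of_le (by positivity) h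
      unfold g
      rw [abs_mul]
      have h4 : |v| ^ (-(1/2:ℝ)) ≤ (j:ℝ)+3 := by
        rw [Real.rpow_neg (abs_nonneg v)]
        rw [inv_le_comm₀ (by positivity) h3]
        calc ((j:ℝ)+3)⁻¹ = (((j:ℝ)+3)⁻¹) ^ (1:ℝ) := (Real.rpow_one _).symm
          _ ≤ (((j:ℝ)+3)⁻¹) ^ (1/2:ℝ) :=
            Real.rpow_le_rpow_of_exponent_ge (by positivity)
              (inv_le_one_of_one_le₀ (by linarith [(Nat.cast_nonneg j : (0:ℝ) ≤ j)])) (by norm_num)
          _ ≤ |v| ^ (1/2:ℝ) := by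
            apply Real.rpow_le_rpow (by positivity) _ (by norm_num)
            rw [← one_div]; exact h
      rw [abs_of_nonneg (by positivity : (0:ℝ) ≤ |v| ^ (-(1/2:ℝ)))]
      calc |sg v| * |v| ^ (-(1/2:ℝ)) ≤ 1 * ((j:ℝ)+3) :=
            mul_le_mul (sg_abs_le v) h4 (by positivity) zero_le_one
        _ = _ := one_mul _
    · simp; positivity

theorem sg_odd : OddBdd sg 1 := ⟨sg_meas, sg_neg, sg_abs_le⟩

theorem ne_zero_ae : ∀ᵐ v ∂nu0, v ≠ 0 := by
  have : ∀ᵐ v ∂(volume : Measure ℝ), v ≠ 0 := by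
    rw [ae_iff]; simp
  exact ae_restrict_of_ae this

theorem rpow_abs_integrable {r : ℝ} (hr : -1 < r) : Integrable (fun v : ℝ => |v| ^ r) nu0 := by
  have h1 : IntervalIntegrable (fun v : ℝ => |v| ^ r) volume 0 (1/2) := by
    refine (intervalIntegral.intervalIntegrable_rpow' (a := 0) (b := 1/2) hr).congr ?_
    intro v hv
    rw [Set.uIoc_of_le (by norm_num)] at hv
    show v ^ r = |v| ^ r
    rw [abs_of_pos hv.1]
  have h2 : IntervalIntegrable (fun v : ℝ => |v| ^ r) volume 0 (-(1/2)) := by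
    rw [IntervalIntegrable.iff_comp_neg]
    simpa using h1
  have h3 : IntervalIntegrable (fun v : ℝ => |v| ^ r) volume (-(1/2)) (1/2) := h2.symm.trans h1
  exact (intervalIntegrable_iff_integrableOn_Icc_of_le (by norm_num)).1 h3

theorem g_memLp {s : ℝ≥0∞} (hs1 : 1 ≤ s) (hs2 : s < 2) : MemLp g s nu0 := by
  have hs0 : s ≠ 0 := (lt_of_lt_of_le one_pos hs1).ne'
  have hst : s ≠ ∞ := (lt_trans hs2 (by norm_num)).ne
  rw [← integrable_norm_rpow_iff g_meas.aestronglyMeasurable hs0 hst]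
  have hr : s.toReal < 2 := by
    have := (ENNReal.toReal_lt_toReal hst (by norm_num)).2 hs2
    simpa using this
  refine (rpow_abs_integrable (r := -(s.toReal/2)) (by linarith)).congr ?_
  filter_upwards [ne_zero_ae] with v hv
  unfold g
  rw [norm_mul, Real.norm_eq_abs, sg_abs hv, one_mul, Real.norm_eq_abs,
    abs_of_nonneg (by positivity : (0:ℝ) ≤ |v| ^ (-(1/2:ℝ))), ← Real.rpow_mul (abs_nonneg v)]
  congr 1
  ring

theorem gj_tendsto {s : ℝ≥0∞} (hs1 : 1 ≤ s) (hs2 : s < 2) : ∀ ε > 0, ∃ j₀, ∀ j ≥ j₀,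
    eLpNorm (fun v => gj j v - g v) s nu0 ≤ ENNReal.ofReal ε := by
  intro ε hε
  have hst : s ≠ ∞ := (lt_trans hs2 (by norm_num)).ne
  obtain ⟨δ, hδ, h⟩ := (g_memLp hs1 hs2).eLpNorm_indicator_le hs1 hst hε
  obtain ⟨j₀, hj₀⟩ := exists_nat_ge (2/δ)
  refine ⟨j₀, fun j hj => ?_⟩
  let B : Set ℝ := {v | ¬ (1/((j:ℝ)+3) ≤ |v|)}
  have hBm : MeasurableSet B := (measurableSet_le measurable_const measurable_id.abs).compl
  have h1 : eLpNorm (fun v => gj j v - g v) s nu0 = eLpNorm (B.indicator g) s nu0 := by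
    refine eLpNorm_congr_norm_ae (ae_of_all _ (fun v => ?_))
    unfold gj
    by_cases hv : 1/((j:ℝ)+3) ≤ |v|
    · have : v ∉ B := fun hB => hB hv
      rw [Set.indicator_of_notMem this, if_pos hv]; simp
    · have : v ∈ B := hv
      rw [Set.indicator_of_mem this, if_neg hv]; simp
  rw [h1]
  refine h B hBm ?_
  have hj3 : (0:ℝ) < (j:ℝ) + 3 := by positivity
  have hsub : B ⊆ Set.Icc (-(1/((j:ℝ)+3))) (1/((j:ℝ)+3)) := by
    intro v hv
    have h2 : |v| < 1/((j:ℝ)+3) := not_le.1 hv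
    rw [abs_lt] at h2
    exact ⟨h2.1.le, h2.2.le⟩
  calc nu0 B ≤ volume B := Measure.restrict_apply_le _ _
    _ ≤ volume (Set.Icc (-(1/((j:ℝ)+3))) (1/((j:ℝ)+3))) := measure_mono hsub
    _ = ENNReal.ofReal (2/((j:ℝ)+3)) := by rw [Real.volume_Icc]; congr 1; ring
    _ ≤ ENNReal.ofReal δ := by
      apply ENNReal.ofReal_le_ofReal
      rw [div_le_iff₀ hj3]
      rw [div_le_iff₀ hδ] at hj₀
      have : (j₀:ℝ) ≤ j := by exact_mod_cast hj
      nlinarith

theorem gj_int (j : ℕ) : Real.log (((j:ℝ)+3)/2) ≤ ∫ v, gj j v ^ 2 ∂nu0 := by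
  have hj3 : (0:ℝ) < (j:ℝ) + 3 := by positivity
  have hj0 : (0:ℝ) ≤ (j:ℝ) := Nat.cast_nonneg j
  set a : ℝ := 1/((j:ℝ)+3) with ha
  have ha0 : 0 < a := by positivity
  have ha2 : a ≤ 1/2 := by
    rw [ha]; apply one_div_le_one_div_of_le <;> linarith
  have h1 : Real.log (((j:ℝ)+3)/2) = ∫ v in a..(1/2), v⁻¹ := by
    rw [integral_inv_of_pos ha0 (by norm_num)]
    congr 1
    rw [ha]; field_simp
  rw [h1, intervalIntegral.integral_of_le ha2]
  have h2 : ∫ v in Set.Ioc a (1/2), v⁻¹ = ∫ v, (Set.Ioc a (1/2)).indicator (fun v => v⁻¹) v ∂nu0 := by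
    rw [integral_indicator measurableSet_Ioc]
    show _ = ∫ v, v⁻¹ ∂(nu0.restrict (Set.Ioc a (1/2)))
    rw [Measure.restrict_restrict measurableSet_Ioc]
    congr 2
    symm
    rw [Set.inter_eq_left]
    intro v hv
    exact ⟨by linarith [hv.1], hv.2⟩
  rw [h2]
  have hint : Integrable (fun v => gj j v ^ 2) nu0 := by
    refine Integrable.of_bound ((gj_odd j).meas.pow_const 2).aestronglyMeasurable (((j:ℝ)+3)^2)
      (ae_of_all _ (fun v => ?_))
    rw [Real.norm_eq_abs, abs_pow]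
    exact pow_le_pow_left₀ (abs_nonneg _) ((gj_odd j).bdd v) 2
  refine integral_mono_of_nonneg (ae_of_all _ (fun v => ?_)) hint (ae_of_all _ (fun v => ?_))
  · show (0:ℝ) ≤ (Set.Ioc a (1/2)).indicator (fun v => v⁻¹) v
    apply Set.indicator_nonneg
    intro v hv
    exact inv_nonneg.2 (ha0.trans hv.1).le
  · show (Set.Ioc a (1/2)).indicator (fun v => v⁻¹) v ≤ gj j v ^ 2
    by_cases hv : v ∈ Set.Ioc a (1/2)
    · rw [Set.indicator_of_mem hv]
      have hv0 : 0 < v := lt_trans ha0 hv.1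
      unfold gj
      rw [if_pos (by rw [abs_of_pos hv0]; exact hv.1.le)]
      unfold g
      rw [mul_pow, sg_sq hv0.ne', one_mul, abs_of_pos hv0, ← Real.rpow_natCast, ← Real.rpow_mul hv0.le]
      norm_num
      rw [Real.rpow_neg_one]
    · rw [Set.indicator_of_notMem hv]; positivity

theorem gj_pos (j : ℕ) : 0 < ∫ v, gj j v ^ 2 ∂nu0 := by
  refine lt_of_lt_of_le (Real.log_pos ?_) (gj_int j)
  have hj0 : (0:ℝ) ≤ (j:ℝ) := Nat.cast_nonneg j
  linarith

theorem g_mul_gj (j : ℕ) : ∫ v, g v * gj j v ∂nu0 = ∫ v, gj j v ^ 2 ∂nu0 := by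
  congr 1; funext v; unfold gj; split_ifs <;> ring

theorem gj_mul_g (j : ℕ) : ∫ v, gj j v * g v ∂nu0 = ∫ v, gj j v ^ 2 ∂nu0 := by
  congr 1; funext v; unfold gj; split_ifs <;> ring

theorem sg_int : ∫ v, sg v ^ 2 ∂nu0 = 1 := by
  have : ∫ v, sg v ^ 2 ∂nu0 = ∫ v, (1:ℝ) ∂nu0 := by
    refine integral_congr_ae ?_
    filter_upwards [ne_zero_ae] with v hv
    exact sg_sq hv
  rw [this]; simp

theorem gj_unb (M : ℝ) : ∃ j, M < Real.sqrt (∫ v, gj j v ^ 2 ∂nu0) := by
  have h1 : Tendsto (fun j : ℕ => Real.sqrt (Real.log (((j:ℝ)+3)/2))) atTop atTop := by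
    refine Real.tendsto_sqrt_atTop.comp (Real.tendsto_log_atTop.comp ?_)
    refine Tendsto.atTop_div_const (by norm_num) ?_
    exact tendsto_atTop_add_const_right _ _ tendsto_natCast_atTop_atTop
  obtain ⟨j, hj⟩ := (h1.eventually_gt_atTop M).exists
  exact ⟨j, hj.trans_le (Real.sqrt_le_sqrt (gj_int j))⟩

theorem const_tendsto {s : ℝ≥0∞} (h : ℝ → ℝ) : ∀ ε > 0, ∃ j₀ : ℕ, ∀ j ≥ j₀,
    eLpNorm (fun v => (fun _ : ℕ => h) j v - h v) s nu0 ≤ ENNReal.ofReal ε := by
  intro ε _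
  refine ⟨0, fun j _ => ?_⟩
  simp

theorem final (𝕜 : Type*) [RCLike 𝕜] (p : ℝ≥0∞) [Fact (1 ≤ p)] (hp1 : 1 < p) (hp : p ≠ ∞)
    (hp2 : p ≠ 2) {U : Ultrafilter ℕ} (hU : IsSelective U) :
    ∃ S : UP 𝕜 (Lp 𝕜 p mu0) U →L[𝕜] UP 𝕜 (Lp 𝕜 p mu0) U,
      ContinuousLinearMapWOT.ofCLM S ∈ closure (upSet 𝕜 (Lp 𝕜 p mu0) U) ∧
      ∀ r : ℝ, ContinuousLinearMapWOT.ofCLM S ∉ closure (upBall 𝕜 (Lp 𝕜 p mu0) U r) := by
  -- the conjugate exponent
  let q : ℝ≥0∞ := ENNReal.conjExponent p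
  have hpq : HolderConjugate p q := ENNReal.HolderConjugate.conjExponent (Fact.out : 1 ≤ p)
  have hqp : HolderConjugate q p := hpq.symm
  have hq1' : 1 ≤ q := ENNReal.HolderConjugate.one_le q p
  have : Fact (1 ≤ q) := ⟨hq1'⟩
  have hq : q ≠ ∞ := by
    intro h
    have := (ENNReal.HolderConjugate.eq_top_iff_eq_one q p).1 h
    exact hp1.ne' this
  rcases lt_or_gt_of_ne hp2 with h2 | h2
  · exact main_generic 𝕜 p q hp hq (sg_odd.memLp q) (g_memLp (Fact.out) h2)
      (αj := fun _ => sg) (βj := gj) (Kα := fun _ => 1) (fun _ => sg_odd) gj_odd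
      (const_tendsto sg) (gj_tendsto Fact.out h2)
      (fun j => by congr 1; funext v; ring) gj_mul_g (fun j => by rw [sg_int]; norm_num) gj_pos
      (fun M => by
        obtain ⟨j, hj⟩ := gj_unb M
        refine ⟨j, ?_⟩
        rw [sg_int, Real.sqrt_one, one_mul]; exact hj) hU
  · have hq2 : q < 2 := by
      by_contra hc
      have h3 : q⁻¹ ≤ 2⁻¹ := ENNReal.inv_le_inv.2 (not_lt.1 hc)
      have h4 : p⁻¹ < 2⁻¹ := ENNReal.inv_lt_inv.2 h2
      have h5 : q⁻¹ + p⁻¹ < 2⁻¹ + 2⁻¹ := ENNReal.add_lt_add_of_le_of_lt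
        (ne_top_of_le_ne_top (by norm_num) h3) h3 h4
      rw [ENNReal.inv_two_add_inv_two, ENNReal.HolderConjugate.inv_add_inv_eq_one q p] at h5
      exact lt_irrefl _ h5
    exact main_generic 𝕜 p q hp hq (g_memLp (Fact.out) hq2) (sg_odd.memLp p)
      (αj := gj) (βj := fun _ => sg) (Kβ := fun _ => 1) gj_odd (fun _ => sg_odd)
      (gj_tendsto Fact.out hq2) (const_tendsto sg)
      g_mul_gj (fun j => by congr 1; funext v; ring) gj_pos (fun j => by rw [sg_int]; norm_num)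
      (fun M => by
        obtain ⟨j, hj⟩ := gj_unb M
        refine ⟨j, ?_⟩
        rw [sg_int, Real.sqrt_one, mul_one]; exact hj) hU

end Pool.Agent.H32UP
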